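import Pool.Agent.LibQB46.Defs

/-!
[QB46 D1] (MEDIUM, MATHLIB ONLY) The equations `Φ` of the deformation and their derivatives.

PLAN. `cv_deg`, `cv_coeff`: direct. `E_map`, `Mt_map`, `gcv_map`: `Polynomial.map` is a ring homomorphism (`Polynomial.coeff_map`). `Φ_map`: `f (coeff l P) = coeff l (P.map f)` and `E_map`, `gcv_map`. `Φ_pderiv`: let `D = pderiv (Sum.inr jm)` on `R = k[b, c]`, and `D'` its extension to `R[X]` coefficientwise
(`D' P = ∑ D (coeff) X^l`; additive, `D'(P Q) = D' P * Q + P * D' Q`; Mathlib: `Derivation.mapCoeff` or `Polynomial.derivation..`; or prove the product rule by `coeff_mul`). `D'(C (X (inl _))) = 0`, `D'(γ_i ^ q) = q γ_i^(q-1) D' γ_i = 0` since `(q : R) = 0`, `D'(gcv j) = X^m` for `jm = (j, m)` and `0` for the other indices. So `D'(E) = ∑_i C (b (i,j)) γ_i^q X^m`.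
-/

set_option autoImplicit false

namespace QB46

open Polynomial

theorem cv_deg {S : Type} [CommRing S] {N d : ℕ} (c : Fin N × Fin (d + 1) → S) (i : Fin N) :
    (cv c i).natDegree ≤ d := by
  unfold cv
  refine natDegree_sum_le_of_forall_le _ _ fun m _ => ?_
  exact (natDegree_C_mul_X_pow_le _ _).trans (Nat.lt_succ_iff.1 m.2)

theorem cv_coeff {S : Type} [CommRing S] {N d : ℕ} (γ : Fin N → S[X])
    (hγ : ∀ i, (γ i).natDegree ≤ d) :
    cv (d := d) (fun im : Fin N × Fin (d + 1) => (γ im.1).coeff im.2) = γ := by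
  funext i
  have h := (γ i).as_sum_range_C_mul_X_pow' (n := d + 1) (Nat.lt_succ_iff.2 (hγ i))
  rw [Finset.sum_range] at h
  exact h.symm

theorem E_map {S S' : Type} [CommRing S] [CommRing S'] (f : S →+* S') (q : ℕ) {N : ℕ}
    (b : Fin N × Fin N → S) (γ : Fin N → S[X]) :
    (E q b γ).map f = E q (fun ij => f (b ij)) (fun i => (γ i).map f) := by
  unfold E
  simp only [Polynomial.map_sum, Polynomial.map_mul, Polynomial.map_pow, Polynomial.map_C]

theorem Mt_map {S S' : Type} [CommRing S] [CommRing S'] (f : S →+* S') (q : ℕ) {N : ℕ}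
    (b : Fin N × Fin N → S) (γ : Fin N → S[X]) (R w : ℕ) :
    (Mt q b γ R w).map f = Mt q (fun ij => f (b ij)) (fun i => (γ i).map f) R w := by
  funext l jm
  rw [Matrix.map_apply]
  unfold Mt
  rw [← Polynomial.coeff_map]
  simp only [Polynomial.map_sum, Polynomial.map_mul, Polynomial.map_pow, Polynomial.map_C, Polynomial.map_X]

theorem gcv_map {k S : Type} [Field k] [CommRing S] {N d : ℕ}
    (f : MvPolynomial (Ix N d) k →+* S) (i : Fin N) :
    (gcv k N d i).map f = cv (fun im => f (MvPolynomial.X (Sum.inr im))) i := by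
  unfold gcv cv
  simp only [Polynomial.map_sum, Polynomial.map_mul, Polynomial.map_pow, Polynomial.map_C, Polynomial.map_X]

theorem Φ_map {k S : Type} [Field k] [CommRing S] {q N d : ℕ}
    (f : MvPolynomial (Ix N d) k →+* S) (l : Fin ((q + 1) * d + 1)) :
    f (Φ k q N d l) = (E q (fun ij => f (MvPolynomial.X (Sum.inl ij)))
      (cv fun im => f (MvPolynomial.X (Sum.inr im)))).coeff l := by
  unfold Φ
  rw [← Polynomial.coeff_map, E_map]
  congr 2
  funext i
  exact gcv_map f i

/-- `P'` is the coefficientwise derivative of `P` -/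
private def D1_is {R : Type} [CommRing R] (D : R → R) (P P' : R[X]) : Prop := ∀ n, P'.coeff n = D (P.coeff n)

private theorem D1_sum {k R : Type} [Field k] [CommRing R] [Algebra k R] (D : Derivation k R R) {ι : Type} (s : Finset ι)
    (P P' : ι → R[X]) (h : ∀ i, D1_is D (P i) (P' i)) : D1_is D (∑ i ∈ s, P i) (∑ i ∈ s, P' i) := by
  intro n
  rw [finsetSum_coeff, finsetSum_coeff, map_sum]
  exact Finset.sum_congr rfl fun i _ => h i n

private theorem D1_mul {k R : Type} [Field k] [CommRing R] [Algebra k R] (D : Derivation k R R) {P P' Q Q' : R[X]}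
    (hP : D1_is D P P') (hQ : D1_is D Q Q') : D1_is D (P * Q) (P' * Q + P * Q') := by
  intro n
  rw [coeff_add, coeff_mul, coeff_mul, coeff_mul, map_sum, ← Finset.sum_add_distrib]
  refine Finset.sum_congr rfl fun x _ => ?_
  rw [hP, hQ, D.leibniz, smul_eq_mul, smul_eq_mul]
  ring

private theorem D1_C {k R : Type} [Field k] [CommRing R] [Algebra k R] (D : Derivation k R R) (s : R) :
    D1_is D (C s) (C (D s)) := by
  intro n
  rw [coeff_C, coeff_C]
  split_ifs
  · rfl
  · exact (map_zero D).symm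

private theorem D1_Xpow {k R : Type} [Field k] [CommRing R] [Algebra k R] (D : Derivation k R R) (m : ℕ) :
    D1_is D (X ^ m : R[X]) 0 := by
  intro n
  rw [coeff_X_pow, coeff_zero]
  split_ifs
  · exact (D.map_one_eq_zero).symm
  · exact (map_zero D).symm

private theorem D1_pow {k R : Type} [Field k] [CommRing R] [Algebra k R] (D : Derivation k R R) {P P' : R[X]}
    (hP : D1_is D P P') (n : ℕ) : D1_is D (P ^ (n + 1)) (((n + 1 : ℕ) : R[X]) * P ^ n * P') := by
  induction n with
  | zero => simpa using hP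
  | succ n ih =>
    have h := D1_mul D ih hP
    rw [pow_succ P (n + 1)]
    have h2 : ((n + 1 : ℕ) : R[X]) * P ^ n * P' * P + P ^ (n + 1) * P' =
        ((n + 1 + 1 : ℕ) : R[X]) * P ^ (n + 1) * P' := by
      push_cast
      ring
    rw [h2] at h
    exact h

theorem Φ_pderiv {k : Type} [Field k] (p : ℕ) [Fact p.Prime] [CharP k p] {q r : ℕ}
    (hq : q = p ^ r) (hr : r ≠ 0) {N d : ℕ} (l : Fin ((q + 1) * d + 1))
    (jm : Fin N × Fin (d + 1)) :
    MvPolynomial.pderiv (Sum.inr jm) (Φ k q N d l) =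
      Mt q (fun ij => MvPolynomial.X (Sum.inl ij)) (gcv k N d) ((q + 1) * d + 1) (d + 1) l jm := by
  classical
  set D := MvPolynomial.pderiv (R := k) (Sum.inr jm : Ix N d) with hD
  have hb : ∀ ij, D (MvPolynomial.X (Sum.inl ij)) = 0 := by
    intro ij
    rw [hD, MvPolynomial.pderiv_X_of_ne]
    simp
  -- the derivative of the generic curve
  have hg : ∀ j, D1_is D (gcv k N d j) (if j = jm.1 then X ^ (jm.2 : ℕ) else 0) := by
    intro j
    have h1 : D1_is D (gcv k N d j) (∑ m : Fin (d + 1), (C (D (MvPolynomial.X (Sum.inr (j, m)))) * X ^ (m : ℕ) +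
        C (MvPolynomial.X (Sum.inr (j, m))) * 0)) := by
      unfold gcv cv
      exact D1_sum D _ _ _ fun m => D1_mul D (D1_C D _) (D1_Xpow D _)
    have h2 : (∑ m : Fin (d + 1), (C (D (MvPolynomial.X (Sum.inr (j, m)))) * X ^ (m : ℕ) +
        C (MvPolynomial.X (Sum.inr (j, m))) * 0)) =
        (if j = jm.1 then X ^ (jm.2 : ℕ) else 0 : (MvPolynomial (Ix N d) k)[X]) := by
      have h3 : ∀ m : Fin (d + 1), D (MvPolynomial.X (Sum.inr (j, m))) = if j = jm.1 ∧ m = jm.2 then 1 else 0 := by
        intro m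
        split_ifs with h4
        · have h5 : (j, m) = jm := Prod.ext h4.1 h4.2
          rw [h5, hD, MvPolynomial.pderiv_X_self]
        · rw [hD, MvPolynomial.pderiv_X_of_ne]
          intro h5
          have h6 : (j, m) = jm := Sum.inr_injective h5
          exact h4 ⟨congrArg Prod.fst h6, congrArg Prod.snd h6⟩
      simp only [h3, mul_zero, add_zero]
      by_cases hj : j = jm.1
      · rw [if_pos hj, Finset.sum_eq_single jm.2]
        · simp [hj]
        · intro m _ hm
          simp [hm]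
        · intro h4
          exact absurd (Finset.mem_univ _) h4
      · rw [if_neg hj]
        exact Finset.sum_eq_zero fun m _ => by simp [hj]
    rw [← h2]
    exact h1
  have hq0 : ((q : ℕ) : (MvPolynomial (Ix N d) k)[X]) = 0 := by
    have h1 : ((p : ℕ) : (MvPolynomial (Ix N d) k)[X]) = 0 := CharP.cast_eq_zero _ p
    rw [hq, Nat.cast_pow, h1, zero_pow hr]
  have hqpos : 0 < q := by
    rw [hq]
    exact pow_pos (Fact.out : p.Prime).pos r
  have hpow : ∀ i, D1_is D (gcv k N d i ^ q) 0 := by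
    intro i
    obtain ⟨n, hn⟩ : ∃ n, q = n + 1 := ⟨q - 1, by omega⟩
    have h1 := D1_pow D (hg i) n
    rw [← hn, hq0, zero_mul, zero_mul] at h1
    exact h1
  have hE : D1_is D (E q (fun ij => MvPolynomial.X (Sum.inl ij)) (gcv k N d))
      (∑ i, C (MvPolynomial.X (Sum.inl (i, jm.1))) * gcv k N d i ^ q * X ^ (jm.2 : ℕ)) := by
    have h1 : D1_is D (E q (fun ij => MvPolynomial.X (Sum.inl ij)) (gcv k N d))
        (∑ i, ∑ j, ((C (D (MvPolynomial.X (Sum.inl (i, j)))) * gcv k N d i ^ q +
          C (MvPolynomial.X (Sum.inl (i, j))) * 0) * gcv k N d j +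
          C (MvPolynomial.X (Sum.inl (i, j))) * gcv k N d i ^ q * (if j = jm.1 then X ^ (jm.2 : ℕ) else 0))) := by
      unfold E
      exact D1_sum D _ _ _ fun i => D1_sum D _ _ _ fun j => D1_mul D (D1_mul D (D1_C D _) (hpow i)) (hg j)
    have h2 : (∑ i, ∑ j, ((C (D (MvPolynomial.X (Sum.inl (i, j)))) * gcv k N d i ^ q +
          C (MvPolynomial.X (Sum.inl (i, j))) * 0) * gcv k N d j +
          C (MvPolynomial.X (Sum.inl (i, j))) * gcv k N d i ^ q * (if j = jm.1 then X ^ (jm.2 : ℕ) else 0))) =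
        ∑ i, C (MvPolynomial.X (Sum.inl (i, jm.1))) * gcv k N d i ^ q * X ^ (jm.2 : ℕ) := by
      refine Finset.sum_congr rfl fun i _ => ?_
      simp only [hb, map_zero, zero_mul, mul_zero, add_zero, zero_add, mul_ite]
      rw [Finset.sum_ite_eq' Finset.univ jm.1, if_pos (Finset.mem_univ _)]
    rw [← h2]
    exact h1
  unfold Φ Mt
  exact (hE l).symm

end QB46
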