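import Pool.Agent.LibQB46.Defs

/-!
[QB46 D2] (SHORT/MEDIUM, MATHLIB ONLY) The matrix `Mt` and the map `a ↦ G q b γ a`; one degree more.

PLAN. `surj_iff`: for `v : Fin N × Fin w → κ` let `a_j = ∑_m C (v (j,m)) X^m` (degree `< w`; every vector of polynomials of degree `< w` is of this form). `(Mt .. .mulVec v) l = coeff l (G q b γ a)`, and `G q b γ a` has degree `< R` (`natDegree (γ_i^q) ≤ q d`, so every term has degree `≤ q d + w - 1 < R`; if `w = 0` everything is `0`).
So the image of `mulVec` is everything iff every polynomial of degree `< R` is `G q b γ a`. `surj_succ`: for `f` of degree `≤ (q+1)d`: `f = C c X^((q+1)d) + f'`, `f' = G a'` with `deg a' < d`; `X^((q+1)d - 1) = G a` with `deg a < d` (`(q+1) d ≥ 1`), `X^((q+1)d) = G (X a)`. So `f = G (C c X a + a')`.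
-/

set_option autoImplicit false

namespace QB46

open Polynomial

private theorem D2_coeff {κ : Type} [Field κ] {w : ℕ} (u : Fin w → κ) (l : ℕ) :
    (∑ m : Fin w, C (u m) * X ^ (m : ℕ)).coeff l = if h : l < w then u ⟨l, h⟩ else 0 := by
  rw [finsetSum_coeff]
  simp only [coeff_C_mul_X_pow]
  split_ifs with h
  · rw [Finset.sum_eq_single (⟨l, h⟩ : Fin w)]
    · simp
    · intro m _ hm
      rw [if_neg]
      intro hl
      exact hm (Fin.ext hl.symm)
    · intro h'
      exact absurd (Finset.mem_univ _) h'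
  · refine Finset.sum_eq_zero fun m _ => ?_
    rw [if_neg]
    intro hl
    exact h (hl ▸ m.2)

private theorem D2_sum_deg {κ : Type} [Field κ] {w : ℕ} (u : Fin w → κ) :
    (∑ m : Fin w, C (u m) * X ^ (m : ℕ) : κ[X]).degree < ((w : ℕ) : WithBot ℕ) := by
  rw [degree_lt_iff_coeff_zero]
  intro l hl
  rw [D2_coeff, dif_neg (by omega)]

private theorem D2_expand {κ : Type} [Field κ] {w : ℕ} (a : κ[X]) (ha : a.degree < (w : ℕ)) :
    (∑ m : Fin w, C (a.coeff m) * X ^ (m : ℕ)) = a := by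
  ext l
  rw [D2_coeff (fun m : Fin w => a.coeff m)]
  split_ifs with h
  · rfl
  · exact ((degree_lt_iff_coeff_zero _ _).1 ha l (by omega)).symm

private theorem D2_mulVec {κ : Type} [Field κ] {q N R w : ℕ} (b : Fin N × Fin N → κ)
    (γ : Fin N → κ[X]) (v : Fin N × Fin w → κ) (l : Fin R) :
    (Mt q b γ R w).mulVec v l =
      (G q b γ fun j => ∑ m : Fin w, C (v (j, m)) * X ^ (m : ℕ)).coeff l := by
  have h1 : (G q b γ fun j => ∑ m : Fin w, C (v (j, m)) * X ^ (m : ℕ)) =
      ∑ jm : Fin N × Fin w, C (v jm) *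
        (∑ i, C (b (i, jm.1)) * γ i ^ q * X ^ (jm.2 : ℕ)) := by
    unfold G
    rw [Finset.sum_comm, Fintype.sum_prod_type]
    refine Finset.sum_congr rfl fun j _ => ?_
    simp only [Finset.mul_sum]
    rw [Finset.sum_comm]
    refine Finset.sum_congr rfl fun m _ => Finset.sum_congr rfl fun i _ => ?_
    ring
  rw [h1, finsetSum_coeff]
  simp only [Matrix.mulVec, dotProduct, Mt, coeff_C_mul]
  exact Finset.sum_congr rfl fun jm _ => mul_comm _ _

private theorem D2_deg {κ : Type} [Field κ] {q N d R w : ℕ} (b : Fin N × Fin N → κ)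
    (γ : Fin N → κ[X]) (hγ : ∀ i, (γ i).natDegree ≤ d) (hR : q * d + w ≤ R) (a : Fin N → κ[X])
    (ha : ∀ i, (a i).degree < (w : ℕ)) : (G q b γ a).degree < (R : ℕ) := by
  unfold G
  rw [← mem_degreeLT]
  refine Submodule.sum_mem _ fun i _ => Submodule.sum_mem _ fun j _ => ?_
  rw [mem_degreeLT]
  rcases eq_or_ne (a j) 0 with h0 | h0
  · rw [h0, mul_zero, degree_zero]
    exact WithBot.bot_lt_coe _
  · have h1 : (a j).natDegree < w := (natDegree_lt_iff_degree_lt h0).2 (ha j)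
    have h2 : (C (b (i, j)) * γ i ^ q).natDegree ≤ q * d :=
      (natDegree_C_mul_le _ _).trans (natDegree_pow_le.trans (Nat.mul_le_mul_left q (hγ i)))
    have h3 : (C (b (i, j)) * γ i ^ q * a j).natDegree ≤ q * d + (a j).natDegree :=
      natDegree_mul_le.trans (Nat.add_le_add_right h2 _)
    refine degree_le_natDegree.trans_lt ?_
    exact_mod_cast (by omega : (C (b (i, j)) * γ i ^ q * a j).natDegree < R)

theorem surj_iff {κ : Type} [Field κ] {q N d R w : ℕ} (b : Fin N × Fin N → κ) (γ : Fin N → κ[X])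
    (hγ : ∀ i, (γ i).natDegree ≤ d) (hR : q * d + w ≤ R) :
    Function.Surjective (Mt q b γ R w).mulVec ↔ ∀ f : κ[X], f.degree < (R : ℕ) →
      ∃ a : Fin N → κ[X], (∀ i, (a i).degree < (w : ℕ)) ∧ G q b γ a = f := by
  constructor
  · intro h f hf
    obtain ⟨v, hv⟩ := h fun l : Fin R => f.coeff l
    have ha : ∀ j : Fin N, (∑ m : Fin w, C (v (j, m)) * X ^ (m : ℕ) : κ[X]).degree <
        ((w : ℕ) : WithBot ℕ) :=
      fun j => D2_sum_deg fun m => v (j, m)
    refine ⟨fun j => ∑ m : Fin w, C (v (j, m)) * X ^ (m : ℕ), ha, ?_⟩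
    ext l
    rcases lt_or_ge l R with hl | hl
    · have h1 := D2_mulVec (R := R) (q := q) b γ v ⟨l, hl⟩
      rw [hv] at h1
      exact h1.symm
    · rw [(degree_lt_iff_coeff_zero _ _).1 (D2_deg b γ hγ hR _ ha) l hl,
        (degree_lt_iff_coeff_zero _ _).1 hf l hl]
  · intro h u
    obtain ⟨a, ha, hG⟩ := h (∑ m : Fin R, C (u m) * X ^ (m : ℕ)) (D2_sum_deg u)
    refine ⟨fun jm => (a jm.1).coeff jm.2, ?_⟩
    ext l
    rw [D2_mulVec]
    have h1 : (fun j => ∑ m : Fin w, C ((a j).coeff m) * X ^ (m : ℕ)) = a :=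
      funext fun j => D2_expand (a j) (ha j)
    rw [h1, hG, D2_coeff, dif_pos l.2]

theorem surj_succ {κ : Type} [Field κ] {q N d : ℕ} (hd : 1 ≤ d) (b : Fin N × Fin N → κ)
    (γ : Fin N → κ[X])
    (h : ∀ f : κ[X], f.degree < ((q + 1) * d : ℕ) →
      ∃ a : Fin N → κ[X], (∀ i, (a i).degree < (d : ℕ)) ∧ G q b γ a = f) (f : κ[X])
    (hf : f.degree < ((q + 1) * d + 1 : ℕ)) :
    ∃ a : Fin N → κ[X], (∀ i, (a i).degree < (d + 1 : ℕ)) ∧ G q b γ a = f := by
  have hpos : 1 ≤ (q + 1) * d := Nat.mul_pos (Nat.succ_pos q) hd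
  obtain ⟨a, ha, hGa⟩ := h (X ^ ((q + 1) * d - 1)) (by
    rw [degree_X_pow]
    exact_mod_cast (by omega : (q + 1) * d - 1 < (q + 1) * d))
  obtain ⟨a', ha', hGa'⟩ := h (f - C (f.coeff ((q + 1) * d)) * X ^ ((q + 1) * d)) (by
    rw [degree_lt_iff_coeff_zero]
    intro l hl
    rw [coeff_sub, coeff_C_mul_X_pow]
    rcases eq_or_ne l ((q + 1) * d) with h1 | h1
    · rw [if_pos h1, h1, sub_self]
    · rw [if_neg h1, sub_zero]
      exact (degree_lt_iff_coeff_zero _ _).1 hf l (by omega))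
  refine ⟨fun i => C (f.coeff ((q + 1) * d)) * X * a i + a' i, fun i => ?_, ?_⟩
  · rw [degree_lt_iff_coeff_zero]
    intro l hl
    rw [coeff_add, (degree_lt_iff_coeff_zero _ _).1 (ha' i) l (by omega), add_zero, mul_assoc,
      coeff_C_mul]
    obtain ⟨m, rfl⟩ : ∃ m, l = m + 1 := ⟨l - 1, by omega⟩
    rw [coeff_X_mul, (degree_lt_iff_coeff_zero _ _).1 (ha i) m (by omega), mul_zero]
  · have h1 : (G q b γ fun i => C (f.coeff ((q + 1) * d)) * X * a i + a' i) =
        C (f.coeff ((q + 1) * d)) * X * G q b γ a + G q b γ a' := by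
      unfold G
      rw [Finset.mul_sum, ← Finset.sum_add_distrib]
      refine Finset.sum_congr rfl fun i _ => ?_
      rw [Finset.mul_sum, ← Finset.sum_add_distrib]
      refine Finset.sum_congr rfl fun j _ => ?_
      ring
    rw [h1, hGa, hGa']
    have h2 : C (f.coeff ((q + 1) * d)) * X * X ^ ((q + 1) * d - 1) =
        C (f.coeff ((q + 1) * d)) * X ^ ((q + 1) * d) := by
      rw [mul_assoc, ← pow_succ', Nat.sub_add_cancel hpos]
    rw [h2]
    ring

end QB46
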