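import Pool.Agent.LibQ9.P2

/-!
[QB46 T1] (SHORT, MATHLIB + P2) A finite family whose transcendence degree is its number of elements is algebraically independent.

PLAN. `Q9.td k z = toNat (trdeg k (adjoin k (range z)))`. `A = adjoin k (range z)`, `z'` the family in `A`. There is a transcendence basis of `A` inside `range z'` (`exists_isTranscendenceBasis_subset` / `exists_isTranscendenceBasis_between`, `A` is algebraic over `adjoin k (range z') = ⊤`), of cardinality `trdeg k A ≥ card I` (in `ℕ` since it is finite: `td ≤ card`, P2 `td_le_card`);
so it is all of `range z'`, and `z'` is injective (`Fintype.card` of the range `= card I`), so `z'` is algebraically independent, so is `z` (`AlgebraicIndependent.map'` for the injection `A → Ω`). Alternatively: if `z` is not algebraically independent then `ker (aeval z) > ⊥ = ker (aeval X)` in `FractionRing`, and P2 `td_chain` gives `td k z + 1 ≤ td k X ≤ card I`: short!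
(`td_chain` with `z := fun i => algebraMap _ (FractionRing (MvPolynomial I k)) (X i)`, `z' := z`, and `td_le_card`.)
-/

set_option autoImplicit false

namespace QB46

open MvPolynomial

theorem algInd_of_td {k : Type} [Field k] {I Ω : Type} [Fintype I] [Field Ω] [Algebra k Ω]
    (z : I → Ω) (h : Fintype.card I ≤ Q9.td k z) : AlgebraicIndependent k z := by
  let x : I → FractionRing (MvPolynomial I k) := fun i =>
    algebraMap (MvPolynomial I k) (FractionRing (MvPolynomial I k)) (X i)
  have hx : (aeval x : MvPolynomial I k →ₐ[k] FractionRing (MvPolynomial I k)) =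
      IsScalarTower.toAlgHom k (MvPolynomial I k) (FractionRing (MvPolynomial I k)) := by
    apply MvPolynomial.algHom_ext
    intro i
    rw [aeval_X]
    rfl
  have hker : RingHom.ker (aeval x : MvPolynomial I k →ₐ[k] FractionRing (MvPolynomial I k)) = ⊥ := by
    rw [hx]
    apply (RingHom.injective_iff_ker_eq_bot _).1
    exact IsFractionRing.injective (MvPolynomial I k) (FractionRing (MvPolynomial I k))
  have hinj : Function.Injective (aeval z : MvPolynomial I k →ₐ[k] Ω) := by
    by_contra hcon
    have h1 : RingHom.ker (aeval z : MvPolynomial I k →ₐ[k] Ω) ≠ ⊥ := by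
      intro h2
      exact hcon ((RingHom.injective_iff_ker_eq_bot _).2 h2)
    have h2 : RingHom.ker (aeval x : MvPolynomial I k →ₐ[k] FractionRing (MvPolynomial I k)) <
        RingHom.ker (aeval z : MvPolynomial I k →ₐ[k] Ω) := by
      rw [hker]
      exact bot_lt_iff_ne_bot.2 h1
    have h3 := Q9.td_chain (k := k) x z h2
    have h4 := Q9.td_le_card (k := k) x
    omega
  exact hinj

theorem td_of_algInd {k : Type} [Field k] {I Ω : Type} [Fintype I] [Field Ω] [Algebra k Ω]
    (z : I → Ω) (h : AlgebraicIndependent k z) : Q9.td k z = Fintype.card I := by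
  unfold Q9.td
  rw [← h.aevalEquiv.trdeg_eq, MvPolynomial.trdeg_of_isDomain]
  simp

end QB46
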