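import Pool.Agent.LibQB46.Q1
import Pool.Agent.LibQB46.D1
import Pool.Agent.LibQB46.D2
import Pool.Agent.LibQB46.T1
import Pool.Agent.LibQ9.P3
import Pool.Agent.LibQ9.P4
import Pool.Agent.LibQ9.P5

/-!
[QB46 D4] (MEDIUM/STRONG, assembly; may cite Q1, D1, D2, T1 and LibQ9 P2, P3, P4, P5 as stated) Deformation of a free curve to the generic q-bic form.

PLAN. `N = q + 2`, `I = Ix N d`, `J = Fin ((q+1)d+1)`, `Φ = Φ k q N d`, `z₀ = Sum.elim (fun ij => Hs ij.1 ij.2) (fun im => (γ im.1).coeff im.2)`. `eval z₀ (Φ l) = 0`: `Φ_map`, `cv_coeff`, `aeval_E`, `hF.2.1`. Put `h₀` = freeness in the form with `G` (`grad_G`), `h₁` = `surj_succ h₀`.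
`card I = N^2 + N(d+1)`, `card J = (q+1)d+1`, `r = card I - card J` (`(q+1)d+1 ≤ N (d+1)` since `N = q+2`). P3 `exists_gen`: `Ω`, `z`. `b ij = z (inl ij)`, `δ = cv (fun im => z (inr im))`, `E q b δ = 0`: all coefficients `l ≤ (q+1)d` vanish by `Φ_map`, the others by the degree.
Surjectivity: `M = Mt q (X ∘ inl) (gcv k N d) R w` over `MvPolynomial I k`; `M.map (eval z₀)`, `M.map (aeval z)` by `Mt_map`, `gcv_map`, `cv_coeff`; `surj_iff` and P5 `surj_of_spz` twice (`R = (q+1)d, w = d` and `R = (q+1)d+1, w = d+1`; `(q+1) d = q d + d`). The first gives the freeness over `Ω`.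
Algebraic independence: P4 `td_le_of_der` with the family `z`, `q := b`, `M` = the submodule of all `v : I → Ω` with `v (inl _) = 0` and `(Mt q b δ ((q+1)d+1) (d+1)).mulVec (v ∘ inr) = 0`, of dimension `N(d+1) - ((q+1)d+1)` (kernel of a surjective map; the map `v ↦ v ∘ inr` is injective on `M`).
`D` with `D (b ij) = 0`: P5 `der_rel` for `Φ l`: `∑_i aeval z (pderiv i (Φ l)) * D (z i) = 0`, the terms `inl` vanish, the others by `Φ_pderiv`. So `td k z ≤ td k b + N(d+1) - ((q+1)d+1)`, and `td k z ≥ r`: `td k b ≥ N^2 = card (Fin N × Fin N)`; T1.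
-/

set_option autoImplicit false

namespace QB46

open Polynomial

private theorem D4_natDegree {κ : Type} [Field κ] {q N d : ℕ} (b : Fin N × Fin N → κ)
    (γ : Fin N → κ[X]) (hγ : ∀ i, (γ i).natDegree ≤ d) : (E q b γ).natDegree ≤ (q + 1) * d := by
  unfold E
  refine natDegree_sum_le_of_forall_le _ _ fun i _ => natDegree_sum_le_of_forall_le _ _ fun j _ => ?_
  have h1 : (γ i ^ q).natDegree ≤ q * d := natDegree_pow_le_of_le q (hγ i)
  have h2 : (C (b (i, j)) * γ i ^ q).natDegree ≤ q * d := (natDegree_C_mul_le _ _).trans h1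
  have h3 := natDegree_mul_le_of_le h2 (hγ j)
  refine h3.trans (le_of_eq ?_)
  ring

private theorem D4_finrank {κ : Type} [Field κ] {I J R : Type} [Fintype I] [Fintype J] [Fintype R]
    [DecidableEq J] (A : Matrix R J κ) (hA : Function.Surjective A.mulVec)
    (M : Submodule κ (I ⊕ J → κ))
    (hM : ∀ v ∈ M, (∀ i, v (Sum.inl i) = 0) ∧ A.mulVec (fun j => v (Sum.inr j)) = 0) :
    Module.finrank κ M ≤ Fintype.card J - Fintype.card R := by
  have hr := LinearMap.finrank_range_add_finrank_ker A.mulVecLin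
  have h1 : LinearMap.range A.mulVecLin = ⊤ := LinearMap.range_eq_top.2 hA
  rw [h1, finrank_top, Module.finrank_fintype_fun_eq_card, Module.finrank_fintype_fun_eq_card] at hr
  have hmem : ∀ v ∈ M, (LinearMap.funLeft κ κ (Sum.inr : J → I ⊕ J)) v ∈ LinearMap.ker A.mulVecLin := by
    intro v hv
    rw [LinearMap.mem_ker]
    exact (hM v hv).2
  let f : M →ₗ[κ] LinearMap.ker A.mulVecLin :=
    (LinearMap.funLeft κ κ (Sum.inr : J → I ⊕ J)).restrict hmem
  have hf : Function.Injective f := by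
    intro v w hvw
    apply Subtype.ext
    funext i
    rcases i with i | j
    · rw [(hM v.1 v.2).1 i, (hM w.1 w.2).1 i]
    · have h2 := congrArg (fun u : LinearMap.ker A.mulVecLin => u.1 j) hvw
      exact h2
  have h3 := LinearMap.finrank_le_finrank_of_injective hf
  omega

theorem deform {k : Type} [Field k] (p : ℕ) [Fact p.Prime] [CharP k p] {q r : ℕ} (hq : q = p ^ r)
    (hr : r ≠ 0) (Hs : Matrix (Fin (q + 2)) (Fin (q + 2)) k) {d : ℕ} (γ : Fin (q + 2) → k[X])
    (hF : Q9.Free (n := q + 1) (qF q Hs) d γ) :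
    ∃ (Ω : Type) (_ : Field Ω) (_ : Algebra k Ω) (b : Fin (q + 2) × Fin (q + 2) → Ω)
      (δ : Fin (q + 2) → Polynomial Ω), IsAlgClosed Ω ∧ AlgebraicIndependent k b ∧
      (∀ i, (δ i).natDegree ≤ d) ∧ E q b δ = 0 ∧
      ∀ f : Polynomial Ω, f.degree < ((q + 1) * d : ℕ) →
        ∃ a : Fin (q + 2) → Polynomial Ω, (∀ i, (a i).degree < (d : ℕ)) ∧ G q b δ a = f := by
  obtain ⟨hd, ⟨hγ, hFγ⟩, hfree⟩ := hF
  let b₀ : Fin (q + 2) × Fin (q + 2) → k := fun ij => Hs ij.1 ij.2
  have hb₀ : (fun ij : Fin (q + 2) × Fin (q + 2) => algebraMap k k (Hs ij.1 ij.2)) = b₀ := rfl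
  have hE₀ : E q b₀ γ = 0 := by
    rw [← hb₀, ← aeval_E]
    exact hFγ
  have h₀ : ∀ f : k[X], f.degree < ((q + 1) * d : ℕ) →
      ∃ a : Fin (q + 2) → k[X], (∀ i, (a i).degree < (d : ℕ)) ∧ G q b₀ γ a = f := by
    intro f hf
    obtain ⟨a, ha, hg⟩ := hfree f hf
    refine ⟨a, ha, ?_⟩
    rw [← hb₀, ← grad_G p hq hr Hs γ a]
    exact hg
  have h₁ := surj_succ hd b₀ γ h₀
  have S₀ : Function.Surjective (Mt q b₀ γ ((q + 1) * d) d).mulVec :=
    (surj_iff b₀ γ hγ (le_of_eq (by ring))).2 h₀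
  have S₁ : Function.Surjective (Mt q b₀ γ ((q + 1) * d + 1) (d + 1)).mulVec :=
    (surj_iff b₀ γ hγ (le_of_eq (by ring))).2 h₁
  let z₀ : Ix (q + 2) d → k := Sum.elim b₀ (fun im => (γ im.1).coeff im.2)
  have hz₀l : (fun ij : Fin (q + 2) × Fin (q + 2) =>
      MvPolynomial.eval z₀ (MvPolynomial.X (Sum.inl ij))) = b₀ := by
    funext ij
    rw [MvPolynomial.eval_X]
    rfl
  have hz₀r : (cv fun im : Fin (q + 2) × Fin (d + 1) =>
      MvPolynomial.eval z₀ (MvPolynomial.X (Sum.inr im))) = γ := by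
    have h1 : (fun im : Fin (q + 2) × Fin (d + 1) =>
        MvPolynomial.eval z₀ (MvPolynomial.X (Sum.inr im))) = fun im => (γ im.1).coeff im.2 := by
      funext im
      rw [MvPolynomial.eval_X]
      rfl
    rw [h1]
    exact cv_coeff γ hγ
  have h0 : ∀ l, MvPolynomial.eval z₀ (Φ k q (q + 2) d l) = 0 := by
    intro l
    rw [Φ_map (MvPolynomial.eval z₀) l, hz₀l, hz₀r, hE₀, coeff_zero]
  have hcard : Fintype.card (Fin ((q + 1) * d + 1)) +
      ((q + 2) * (q + 2) + ((q + 2) * (d + 1) - ((q + 1) * d + 1))) ≤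
      Fintype.card (Ix (q + 2) d) := by
    have h1 : (q + 1) * d + 1 ≤ (q + 2) * (d + 1) := by nlinarith
    simp only [Fintype.card_sum, Fintype.card_prod, Fintype.card_fin]
    omega
  obtain ⟨Ω, instF, instA, z, hAC, hΦ, hspz, htd, -⟩ :=
    Q9.exists_gen (Φ k q (q + 2) d) z₀ h0 _ hcard
  let b : Fin (q + 2) × Fin (q + 2) → Ω := fun ij => z (Sum.inl ij)
  let δ : Fin (q + 2) → Polynomial Ω := cv (d := d) fun im => z (Sum.inr im)
  have hδ : ∀ i, (δ i).natDegree ≤ d := fun i => cv_deg _ i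
  let ev : MvPolynomial (Ix (q + 2) d) k →+* Ω :=
    (MvPolynomial.aeval z : MvPolynomial (Ix (q + 2) d) k →ₐ[k] Ω).toRingHom
  have hev : ∀ P, ev P = MvPolynomial.aeval z P := fun P => rfl
  have hevX : ∀ i, ev (MvPolynomial.X i) = z i := fun i => by rw [hev, MvPolynomial.aeval_X]
  have hE : E q b δ = 0 := by
    ext l
    rw [coeff_zero]
    by_cases hl : l < (q + 1) * d + 1
    · have h1 := hΦ ⟨l, hl⟩
      rw [← hev, Φ_map ev ⟨l, hl⟩] at h1
      simp only [hevX] at h1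
      exact h1
    · apply coeff_eq_zero_of_natDegree_lt
      have := D4_natDegree b δ hδ (q := q)
      omega
  -- the matrices
  have hmat₀ : ∀ R w : ℕ, (Mt q (fun ij => (MvPolynomial.X (Sum.inl ij) : MvPolynomial (Ix (q + 2) d) k))
      (gcv k (q + 2) d) R w).map (MvPolynomial.eval z₀) = Mt q b₀ γ R w := by
    intro R w
    rw [Mt_map, hz₀l]
    congr 1
    funext i
    rw [gcv_map, hz₀r]
  have hmat : ∀ R w : ℕ, (Mt q (fun ij => (MvPolynomial.X (Sum.inl ij) : MvPolynomial (Ix (q + 2) d) k))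
      (gcv k (q + 2) d) R w).map ev = Mt q b δ R w := by
    intro R w
    rw [Mt_map]
    simp only [hevX]
    congr 1
    funext i
    rw [gcv_map]
    simp only [hevX]
    rfl
  have hsurj : ∀ R w : ℕ, Function.Surjective (Mt q b₀ γ R w).mulVec →
      Function.Surjective (Mt q b δ R w).mulVec := by
    intro R w h
    have h1 := Q9.surj_of_spz z z₀ hspz
      (Mt q (fun ij => (MvPolynomial.X (Sum.inl ij) : MvPolynomial (Ix (q + 2) d) k))
        (gcv k (q + 2) d) R w) (by rw [hmat₀]; exact h)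
    have h2 : (Mt q (fun ij => (MvPolynomial.X (Sum.inl ij) : MvPolynomial (Ix (q + 2) d) k))
        (gcv k (q + 2) d) R w).map (MvPolynomial.aeval z) = Mt q b δ R w := hmat R w
    rw [h2] at h1
    exact h1
  have T₀ := hsurj _ _ S₀
  have T₁ := hsurj _ _ S₁
  refine ⟨Ω, instF, instA, b, δ, hAC, ?_, hδ, hE, (surj_iff b δ hδ (le_of_eq (by ring))).1 T₀⟩
  -- algebraic independence
  apply algInd_of_td
  have hq' : ∀ j, b j ∈ Q9.fld k z := fun j =>
    IntermediateField.subset_adjoin k _ (Set.mem_range_self (Sum.inl j))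
  let M : Submodule Ω (Ix (q + 2) d → Ω) :=
    LinearMap.ker (LinearMap.funLeft Ω Ω
        (Sum.inl : Fin (q + 2) × Fin (q + 2) → Ix (q + 2) d)) ⊓
      LinearMap.ker ((Mt q b δ ((q + 1) * d + 1) (d + 1)).mulVecLin ∘ₗ
        LinearMap.funLeft Ω Ω (Sum.inr : Fin (q + 2) × Fin (d + 1) → Ix (q + 2) d))
  have hfin := D4_finrank (Mt q b δ ((q + 1) * d + 1) (d + 1)) T₁ M (by
    intro v hv
    obtain ⟨hv1, hv2⟩ := Submodule.mem_inf.1 hv
    rw [LinearMap.mem_ker] at hv1 hv2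
    exact ⟨fun i => congrFun hv1 i, hv2⟩)
  have hder := Q9.td_le_of_der z b hq' M _ hfin (by
    intro D hD
    have hinl : ∀ ij, D (Q9.fz k z (Sum.inl ij)) = 0 := fun ij => hD ij
    refine Submodule.mem_inf.2 ⟨?_, ?_⟩
    · rw [LinearMap.mem_ker]
      funext ij
      exact hinl ij
    · rw [LinearMap.mem_ker]
      funext l
      have h1 := Q9.der_rel z D (Φ k q (q + 2) d l) (hΦ l)
      rw [Fintype.sum_sum_type] at h1
      have h2 : ∑ ij : Fin (q + 2) × Fin (q + 2),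
          MvPolynomial.aeval z (MvPolynomial.pderiv (Sum.inl ij) (Φ k q (q + 2) d l)) *
            D (Q9.fz k z (Sum.inl ij)) = 0 := by
        refine Finset.sum_eq_zero fun ij _ => ?_
        rw [hinl ij, mul_zero]
      rw [h2, zero_add] at h1
      have h3 : ∀ jm : Fin (q + 2) × Fin (d + 1),
          MvPolynomial.aeval z (MvPolynomial.pderiv (Sum.inr jm) (Φ k q (q + 2) d l)) =
            Mt q b δ ((q + 1) * d + 1) (d + 1) l jm := by
        intro jm
        rw [Φ_pderiv p hq hr, ← hmat]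
        rfl
      simp only [h3] at h1
      exact h1)
  rw [Fintype.card_prod, Fintype.card_fin]
  simp only [Fintype.card_fin, Fintype.card_prod] at hder htd ⊢
  omega

end QB46
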