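import Pool.Agent.LibQ9.PDefs

/-!
# LibQB46: q-bic hypersurfaces of degree `q + 1` in `P^(q+1)` (MP_407a6b_ag, the case `p ≤ n`), definitions

`q = p ^ r` with `r ≥ 1` is a power of the characteristic, the form with matrix `H` is `∑ H i j x_i^q x_j`.
-/

set_option autoImplicit false

namespace QB46

open MvPolynomial

/-- the `q`-bic form `∑ H i j x_i^q x_j` -/
noncomputable def qF {κ : Type} [CommRing κ] (q : ℕ) {N : ℕ} (H : Matrix (Fin N) (Fin N) κ) :
    MvPolynomial (Fin N) κ :=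
  ∑ i, ∑ j, C (H i j) * X i ^ q * X j

/-- the matrix of the singular form `x₀^q x₁ + x₂^q x_(q+1) + ∑_{i=3}^{q+1} x_i^q x_(i-1)` -/
def H₀ {κ : Type} [CommRing κ] (q : ℕ) : Matrix (Fin (q + 2)) (Fin (q + 2)) κ := fun i j =>
  if (i : ℕ) = 0 ∧ (j : ℕ) = 1 then 1
  else if (i : ℕ) = 2 ∧ (j : ℕ) = q + 1 then 1
  else if 3 ≤ (i : ℕ) ∧ (j : ℕ) + 1 = i then 1
  else 0

/-- the curve `(1 + ∑_{m<q-1} t^((q+1)m+1), -t^(q(q-1)), 1, t^q, t^(2q), …, t^(q(q-1)))` on the singular form -/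
noncomputable def γ₀ {κ : Type} [CommRing κ] (q : ℕ) : Fin (q + 2) → Polynomial κ := fun i =>
  if (i : ℕ) = 0 then 1 + ∑ m ∈ Finset.range (q - 1), Polynomial.X ^ ((q + 1) * m + 1)
  else if (i : ℕ) = 1 then -Polynomial.X ^ (q * (q - 1))
  else Polynomial.X ^ (q * ((i : ℕ) - 2))

/-- the polynomial `F_b(γ) = ∑ b i j γ_i^q γ_j` -/
noncomputable def E {S : Type} [CommRing S] (q : ℕ) {N : ℕ} (b : Fin N × Fin N → S)
    (γ : Fin N → Polynomial S) : Polynomial S :=
  ∑ i, ∑ j, Polynomial.C (b (i, j)) * γ i ^ q * γ j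

/-- the gradient `∇F_b(γ)·a = ∑ b i j γ_i^q a_j` -/
noncomputable def G {S : Type} [CommRing S] (q : ℕ) {N : ℕ} (b : Fin N × Fin N → S)
    (γ a : Fin N → Polynomial S) : Polynomial S :=
  ∑ i, ∑ j, Polynomial.C (b (i, j)) * γ i ^ q * a j

/-- the curve with coefficients `c` -/
noncomputable def cv {S : Type} [CommRing S] {N d : ℕ} (c : Fin N × Fin (d + 1) → S) :
    Fin N → Polynomial S := fun i => ∑ m : Fin (d + 1), Polynomial.C (c (i, m)) * Polynomial.X ^ (m : ℕ)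

/-- the unknowns: the matrix `b` and the coefficients of the curve -/
abbrev Ix (N d : ℕ) : Type := (Fin N × Fin N) ⊕ (Fin N × Fin (d + 1))

/-- the generic curve over `k[b, c]` -/
noncomputable def gcv (k : Type) [Field k] (N d : ℕ) : Fin N → Polynomial (MvPolynomial (Ix N d) k) :=
  cv (d := d) fun im => X (Sum.inr im)

/-- the coefficients of `F_b(γ_c)` -/
noncomputable def Φ (k : Type) [Field k] (q N d : ℕ) :
    Fin ((q + 1) * d + 1) → MvPolynomial (Ix N d) k := fun l =>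
  (E q (fun ij => X (Sum.inl ij)) (gcv k N d)).coeff l

/-- the matrix of `a ↦ ∇F_b(γ)·a` from the vectors of polynomials of degree `< w` to the polynomials
of degree `< R` -/
noncomputable def Mt {S : Type} [CommRing S] (q : ℕ) {N : ℕ} (b : Fin N × Fin N → S)
    (γ : Fin N → Polynomial S) (R w : ℕ) : Matrix (Fin R) (Fin N × Fin w) S := fun l jm =>
  (∑ i, Polynomial.C (b (i, jm.1)) * γ i ^ q * Polynomial.X ^ (jm.2 : ℕ)).coeff l

end QB46
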