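import Pool.Agent.LibQB46.Defs

/-!
[QB46 E1] (SHORT/MEDIUM, MATHLIB ONLY) The explicit curve `γ₀` lies on the singular form `H₀` and has degree at most `q(q-1)`.

PLAN. `γ₀_deg`: `s = 1 + ∑_{m<q-1} X^((q+1)m+1)`, `(q+1)(q-2)+1 = q^2 - q - 1 ≤ q(q-1)`; `q (i-2) ≤ q (q-1)` for `i ≤ q+1`. `G_H₀` : by the support of `H₀` (`Fin.sum_univ_succ` twice for the rows `0, 1`, or `Finset.sum_eq_single`): for all `a`,
`G q H₀ γ a = γ 0 ^ q * a 1 + γ 2 ^ q * a (q+1) + ∑_{m : Fin (q-1)} γ (m+3)^q * a (m+2)`. `γ₀_on`: `E q b γ = G q b γ γ` by definition; with `G_H₀`: `s^q = 1 + ∑ X^(q((q+1)m+1))` (`add_pow_char_pow`, `sum_pow_char_pow`),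
`-(1 + ∑_m X^(q((q+1)m+1))) X^(q(q-1)) + X^(q(q-1)) + ∑_m X^(q q (m+1)) X^(q m) = 0` as `q((q+1)m+1) + q(q-1) = q q (m+1) + q m`.
-/

set_option autoImplicit false

namespace QB46

open Polynomial

private theorem E1_row {k : Type} [Field k] {q : ℕ} (γ a : Fin (q + 2) → k[X]) (i j0 : Fin (q + 2))
    (h : ∀ j, (H₀ q i j : k) = if j = j0 then 1 else 0) :
    ∑ j, C (H₀ q i j : k) * γ i ^ q * a j = γ i ^ q * a j0 := by
  rw [Finset.sum_eq_single j0]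
  · rw [h, if_pos rfl, C_1, one_mul]
  · intro j _ hj
    rw [h, if_neg hj, C_0, zero_mul, zero_mul]
  · intro hj
    exact absurd (Finset.mem_univ _) hj

private theorem E1_exp (q m : ℕ) (hq : 1 ≤ q) :
    q * (m + 1) * q + q * m = ((q + 1) * m + 1) * q + q * (q - 1) := by
  obtain ⟨n, rfl⟩ : ∃ n, q = n + 1 := ⟨q - 1, by omega⟩
  have h5 : n + 1 - 1 = n := by omega
  rw [h5]
  ring

theorem γ₀_deg {k : Type} [Field k] {q : ℕ} (hq : 2 ≤ q) (i : Fin (q + 2)) :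
    (γ₀ q i : k[X]).natDegree ≤ q * (q - 1) := by
  obtain ⟨n, rfl⟩ : ∃ n, q = n + 2 := ⟨q - 2, by omega⟩
  unfold γ₀
  split_ifs with h0 h1
  · refine (natDegree_add_le _ _).trans (max_le (by simp) ?_)
    refine natDegree_sum_le_of_forall_le _ _ fun m hm => ?_
    rw [Finset.mem_range] at hm
    rw [natDegree_X_pow]
    have hm' : m ≤ n := by omega
    have h2 : (n + 2 + 1) * m ≤ (n + 2 + 1) * n := Nat.mul_le_mul_left _ hm'
    have h3 : (n + 2) * (n + 2 - 1) = (n + 2 + 1) * n + 2 := by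
      have : n + 2 - 1 = n + 1 := by omega
      rw [this]; ring
    omega
  · rw [natDegree_neg, natDegree_X_pow]
  · rw [natDegree_X_pow]
    apply Nat.mul_le_mul_left
    have := i.2
    omega

theorem G_H₀ {k : Type} [Field k] {q : ℕ} (hq : 2 ≤ q) (γ a : Fin (q + 2) → k[X]) :
    G q (fun ij => (H₀ q ij.1 ij.2 : k)) γ a = γ 0 ^ q * a 1 +
      γ ⟨2, by omega⟩ ^ q * a ⟨q + 1, by omega⟩ +
      ∑ m : Fin (q - 1), γ ⟨m + 3, by omega⟩ ^ q * a ⟨m + 2, by omega⟩ := by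
  obtain ⟨n, rfl⟩ : ∃ n, q = n + 1 := ⟨q - 1, by omega⟩
  have hn : 1 ≤ n := by omega
  unfold G
  have e0 : ∑ j, C (H₀ (n + 1) (0 : Fin (n + 1 + 2)) j : k) * γ 0 ^ (n + 1) * a j
      = γ 0 ^ (n + 1) * a 1 := by
    apply E1_row
    intro j
    unfold H₀
    by_cases hj : j = 1
    · subst hj; simp
    · have hj' : (j : ℕ) ≠ 1 := fun h => hj (Fin.ext (by rw [h]; simp))
      simp [hj, hj']
  have e1 : ∑ j, C (H₀ (n + 1) (⟨1, by omega⟩ : Fin (n + 1 + 2)) j : k) *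
      γ ⟨1, by omega⟩ ^ (n + 1) * a j = 0 := by
    apply Finset.sum_eq_zero
    intro j _
    simp [H₀]
  have e2 : ∑ j, C (H₀ (n + 1) (⟨2, by omega⟩ : Fin (n + 1 + 2)) j : k) *
      γ ⟨2, by omega⟩ ^ (n + 1) * a j = γ ⟨2, by omega⟩ ^ (n + 1) * a ⟨n + 1 + 1, by omega⟩ := by
    apply E1_row
    intro j
    unfold H₀
    by_cases hj : j = ⟨n + 1 + 1, by omega⟩
    · subst hj; simp
    · have hj' : (j : ℕ) ≠ n + 1 + 1 := fun h => hj (Fin.ext h)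
      simp [hj, hj']
  have e3 : ∀ m : Fin n, ∑ j, C (H₀ (n + 1) (⟨m + 3, by omega⟩ : Fin (n + 1 + 2)) j : k) *
      γ ⟨m + 3, by omega⟩ ^ (n + 1) * a j = γ ⟨m + 3, by omega⟩ ^ (n + 1) * a ⟨m + 2, by omega⟩ := by
    intro m
    apply E1_row
    intro j
    unfold H₀
    by_cases hj : j = ⟨m + 2, by omega⟩
    · subst hj; simp
    · have hj' : (j : ℕ) ≠ m + 2 := fun h => hj (Fin.ext h)
      have hj'' : ¬ ((j : ℕ) + 1 = (m : ℕ) + 3) := by omega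
      rw [if_neg hj, if_neg (by simp), if_neg (by simp), if_neg (fun h => hj'' h.2)]
  have hs : ∑ i : Fin (n + 1 + 2), ∑ j, C (H₀ (n + 1) i j : k) * γ i ^ (n + 1) * a j
      = (∑ j, C (H₀ (n + 1) (0 : Fin (n + 1 + 2)) j : k) * γ 0 ^ (n + 1) * a j) +
        ((∑ j, C (H₀ (n + 1) (⟨1, by omega⟩ : Fin (n + 1 + 2)) j : k) *
          γ ⟨1, by omega⟩ ^ (n + 1) * a j) +
        ((∑ j, C (H₀ (n + 1) (⟨2, by omega⟩ : Fin (n + 1 + 2)) j : k) *
          γ ⟨2, by omega⟩ ^ (n + 1) * a j) +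
        ∑ m : Fin n, ∑ j, C (H₀ (n + 1) (⟨m + 3, by omega⟩ : Fin (n + 1 + 2)) j : k) *
          γ ⟨m + 3, by omega⟩ ^ (n + 1) * a j)) := by
    have t1 := Fin.sum_univ_succ (n := n + 2)
      (fun i => ∑ j, C (H₀ (n + 1) i j : k) * γ i ^ (n + 1) * a j)
    have t2 := Fin.sum_univ_succ (n := n + 1)
      (fun i => ∑ j, C (H₀ (n + 1) (Fin.succ i) j : k) * γ (Fin.succ i) ^ (n + 1) * a j)
    have t3 := Fin.sum_univ_succ (n := n)
      (fun i => ∑ j, C (H₀ (n + 1) (Fin.succ (Fin.succ i)) j : k) *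
        γ (Fin.succ (Fin.succ i)) ^ (n + 1) * a j)
    rw [t1, t2, t3]
    rfl
  change ∑ i : Fin (n + 1 + 2), ∑ j, C (H₀ (n + 1) i j : k) * γ i ^ (n + 1) * a j = _
  rw [hs, e0, e1, e2, Finset.sum_congr rfl fun m _ => e3 m, zero_add, ← add_assoc]
  rfl

theorem γ₀_on {k : Type} [Field k] (p : ℕ) [Fact p.Prime] [CharP k p] {q r : ℕ} (hq : q = p ^ r)
    (hr : r ≠ 0) : E q (fun ij => (H₀ q ij.1 ij.2 : k)) (γ₀ q) = 0 := by
  have hp : 2 ≤ p := (Fact.out : p.Prime).two_le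
  have hq2 : 2 ≤ q := by
    rw [hq]
    calc 2 ≤ p := hp
      _ = p ^ 1 := (pow_one p).symm
      _ ≤ p ^ r := Nat.pow_le_pow_right (by omega) (by omega)
  have h1 : E q (fun ij => (H₀ q ij.1 ij.2 : k)) (γ₀ q) =
      G q (fun ij => (H₀ q ij.1 ij.2 : k)) (γ₀ q) (γ₀ q) := rfl
  rw [h1, G_H₀ hq2]
  have g0 : (γ₀ q (0 : Fin (q + 2)) : k[X]) = 1 + ∑ m ∈ Finset.range (q - 1), X ^ ((q + 1) * m + 1) := by
    simp [γ₀]
  have g1 : (γ₀ q (1 : Fin (q + 2)) : k[X]) = -X ^ (q * (q - 1)) := by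
    simp [γ₀]
  have g2 : (γ₀ q (⟨2, by omega⟩ : Fin (q + 2)) : k[X]) = 1 := by
    simp [γ₀]
  have g3 : (γ₀ q (⟨q + 1, by omega⟩ : Fin (q + 2)) : k[X]) = X ^ (q * (q - 1)) := by
    unfold γ₀
    rw [if_neg (by simp), if_neg (by simp; omega)]
    simp
  have g4 : ∀ m : Fin (q - 1), (γ₀ q (⟨m + 3, by omega⟩ : Fin (q + 2)) : k[X]) = X ^ (q * (m + 1)) := by
    intro m
    unfold γ₀
    rw [if_neg (by simp), if_neg (by simp)]
    simp
  have g5 : ∀ m : Fin (q - 1), (γ₀ q (⟨m + 2, by omega⟩ : Fin (q + 2)) : k[X]) = X ^ (q * m) := by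
    intro m
    unfold γ₀
    rw [if_neg (by simp), if_neg (by simp)]
    simp
  rw [g0, g1, g2, g3]
  have h2 : (1 + ∑ m ∈ Finset.range (q - 1), (X : k[X]) ^ ((q + 1) * m + 1)) ^ q
      = 1 + ∑ m ∈ Finset.range (q - 1), X ^ (((q + 1) * m + 1) * q) := by
    conv_lhs => rw [hq]
    rw [add_pow_char_pow, one_pow, sum_pow_char_pow]
    congr 1
    rw [← hq]
    refine Finset.sum_congr rfl fun m _ => ?_
    rw [← pow_mul]
  rw [h2]
  have h3 : ∑ m : Fin (q - 1), (γ₀ q (⟨m + 3, by omega⟩ : Fin (q + 2)) : k[X]) ^ q *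
      γ₀ q (⟨m + 2, by omega⟩ : Fin (q + 2)) =
      ∑ m ∈ Finset.range (q - 1), X ^ (((q + 1) * m + 1) * q) * X ^ (q * (q - 1)) := by
    rw [Finset.sum_range]
    refine Finset.sum_congr rfl fun m _ => ?_
    rw [g4, g5, ← pow_mul, ← pow_add, ← pow_add]
    congr 1
    exact E1_exp q m (by omega)
  rw [h3, ← Finset.sum_mul]
  ring

end QB46
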