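import Pool.Agent.LibQB46.E1

/-!
[QB46 E2] The explicit curve `γ₀` is free on the singular form `H₀`.
-/

set_option autoImplicit false

namespace QB46

open Polynomial

private def E2_P (k : Type) [Field k] (q : ℕ) (f : k[X]) : Prop :=
  ∃ a : Fin (q + 2) → k[X], (∀ i, (a i).degree < (q * (q - 1) : ℕ)) ∧
      G q (fun ij => (H₀ q ij.1 ij.2 : k)) (γ₀ q) a = f

private theorem E2_add {k : Type} [Field k] {q : ℕ} {f g : k[X]} (hf : E2_P k q f)
    (hg : E2_P k q g) : E2_P k q (f + g) := by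
  obtain ⟨a, ha, hfa⟩ := hf
  obtain ⟨b, hb, hgb⟩ := hg
  refine ⟨fun i => a i + b i, fun i => ?_, ?_⟩
  · exact lt_of_le_of_lt (Polynomial.degree_add_le _ _) (max_lt (ha i) (hb i))
  · rw [← hfa, ← hgb]
    simp only [G, mul_add, Finset.sum_add_distrib]

private theorem E2_smul {k : Type} [Field k] {q : ℕ} {f : k[X]} (c : k) (hf : E2_P k q f) :
    E2_P k q (C c * f) := by
  obtain ⟨a, ha, hfa⟩ := hf
  refine ⟨fun i => C c * a i, fun i => ?_, ?_⟩
  · refine lt_of_le_of_lt ?_ (ha i)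
    show (C c * a i).degree ≤ (a i).degree
    rw [← smul_eq_C_mul]
    exact degree_smul_le _ _
  · rw [← hfa]
    simp only [G, Finset.mul_sum]
    refine Finset.sum_congr rfl fun i _ => Finset.sum_congr rfl fun j _ => ?_
    ring

private theorem E2_zero {k : Type} [Field k] {q : ℕ} : E2_P k q 0 := by
  refine ⟨fun _ => 0, fun i => ?_, ?_⟩
  · rw [degree_zero]
    exact WithBot.bot_lt_coe _
  · simp [G]

private theorem E2_sub {k : Type} [Field k] {q : ℕ} {f g : k[X]} (hf : E2_P k q f)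
    (hg : E2_P k q g) : E2_P k q (f - g) := by
  have h := E2_add hf (E2_smul (-1) hg)
  have h2 : f + C (-1) * g = f - g := by
    rw [C_neg, C_1]; ring
  rwa [h2] at h

private theorem E2_sum {k : Type} [Field k] {q : ℕ} {ι : Type} (s : Finset ι) (f : ι → k[X])
    (h : ∀ i ∈ s, E2_P k q (f i)) : E2_P k q (∑ i ∈ s, f i) := by
  classical
  induction s using Finset.induction_on with
  | empty => simpa using E2_zero
  | insert a s ha ih =>
    rw [Finset.sum_insert ha]
    exact E2_add (h a (Finset.mem_insert_self _ _))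
      (ih fun i hi => h i (Finset.mem_insert_of_mem hi))

private theorem E2_G {k : Type} [Field k] (p : ℕ) [Fact p.Prime] [CharP k p] {q r : ℕ}
    (hq : q = p ^ r) (hq2 : 2 ≤ q) (a : Fin (q + 2) → k[X]) :
    G q (fun ij => (H₀ q ij.1 ij.2 : k)) (γ₀ q) a =
      (1 + ∑ m ∈ Finset.range (q - 1), X ^ (q * ((q + 1) * m + 1))) * a 1 +
      a ⟨q + 1, by omega⟩ +
      ∑ m : Fin (q - 1), X ^ (q * q * ((m : ℕ) + 1)) * a ⟨m + 2, by omega⟩ := by
  rw [G_H₀ hq2]
  have h0 : (γ₀ q (0 : Fin (q + 2)) : k[X]) = 1 + ∑ m ∈ Finset.range (q - 1), X ^ ((q + 1) * m + 1) := by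
    simp [γ₀]
  have h0q : (γ₀ q (0 : Fin (q + 2)) : k[X]) ^ q =
      1 + ∑ m ∈ Finset.range (q - 1), X ^ (q * ((q + 1) * m + 1)) := by
    rw [h0]
    have h1 : (1 + ∑ m ∈ Finset.range (q - 1), (X : k[X]) ^ ((q + 1) * m + 1)) ^ (p ^ r) =
        1 ^ (p ^ r) + (∑ m ∈ Finset.range (q - 1), (X : k[X]) ^ ((q + 1) * m + 1)) ^ (p ^ r) :=
      add_pow_char_pow _ _ _ _
    have h2 : (∑ m ∈ Finset.range (q - 1), (X : k[X]) ^ ((q + 1) * m + 1)) ^ (p ^ r) =
        ∑ m ∈ Finset.range (q - 1), ((X : k[X]) ^ ((q + 1) * m + 1)) ^ (p ^ r) :=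
      sum_pow_char_pow _ _ _ _
    rw [← hq] at h1 h2
    rw [h1, h2, one_pow]
    congr 1
    refine Finset.sum_congr rfl fun m _ => ?_
    rw [← pow_mul, mul_comm]
  have h2 : (γ₀ q (⟨2, by omega⟩ : Fin (q + 2)) : k[X]) = 1 := by
    simp [γ₀]
  have h3 : ∀ m : Fin (q - 1), (γ₀ q (⟨m + 3, by omega⟩ : Fin (q + 2)) : k[X]) ^ q =
      X ^ (q * q * ((m : ℕ) + 1)) := by
    intro m
    have h4 : (γ₀ q (⟨m + 3, by omega⟩ : Fin (q + 2)) : k[X]) = X ^ (q * ((m : ℕ) + 1)) := by
      unfold γ₀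
      rw [if_neg (by simp), if_neg (by simp)]
      congr 1
    rw [h4, ← pow_mul]
    congr 1
    ring
  rw [h0q, h2, one_pow, one_mul]
  congr 1
  refine Finset.sum_congr rfl fun m _ => ?_
  rw [h3 m]

/-- the vector with one monomial entry -/
private noncomputable def E2_s (k : Type) [Field k] (q t j : ℕ) : Fin (q + 2) → k[X] :=
  fun i => if (i : ℕ) = t then X ^ j else 0

private theorem E2_s_deg {k : Type} [Field k] {q t j : ℕ} (hj : j < q * (q - 1)) (i : Fin (q + 2)) :
    (E2_s k q t j i).degree < (q * (q - 1) : ℕ) := by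
  unfold E2_s
  split_ifs
  · rw [degree_X_pow]
    exact_mod_cast hj
  · rw [degree_zero]
    exact WithBot.bot_lt_coe _

private theorem E2_one {k : Type} [Field k] (p : ℕ) [Fact p.Prime] [CharP k p] {q r : ℕ}
    (hq : q = p ^ r) (hq2 : 2 ≤ q) {i j : ℕ} (hi : i ≤ q - 1) (hj : j < q * (q - 1)) :
    E2_P k q (X ^ (q * q * i + j)) := by
  rcases Nat.eq_zero_or_pos i with h0 | h0
  · subst h0
    refine ⟨E2_s k q (q + 1) j, E2_s_deg hj, ?_⟩
    rw [E2_G p hq hq2]
    have h1 : E2_s k q (q + 1) j 1 = 0 := by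
      unfold E2_s
      rw [if_neg]
      rw [Fin.val_one]
      omega
    have h2 : E2_s k q (q + 1) j ⟨q + 1, by omega⟩ = X ^ j := by
      unfold E2_s
      rw [if_pos rfl]
    have h3 : ∀ m : Fin (q - 1), E2_s k q (q + 1) j ⟨m + 2, by omega⟩ = 0 := by
      intro m
      unfold E2_s
      rw [if_neg]
      have := m.isLt
      show (m : ℕ) + 2 ≠ q + 1
      omega
    have h4 : ∑ m : Fin (q - 1), (X : k[X]) ^ (q * q * ((m : ℕ) + 1)) *
        E2_s k q (q + 1) j ⟨m + 2, by omega⟩ = 0 :=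
      Finset.sum_eq_zero (fun m _ => by rw [h3 m, mul_zero])
    rw [h1, h2, h4]
    rw [mul_zero, zero_add, add_zero, mul_zero, zero_add]
  · refine ⟨E2_s k q (i + 1) j, E2_s_deg hj, ?_⟩
    rw [E2_G p hq hq2]
    have h1 : E2_s k q (i + 1) j 1 = 0 := by
      unfold E2_s
      rw [if_neg]
      rw [Fin.val_one]
      omega
    have h2 : E2_s k q (i + 1) j ⟨q + 1, by omega⟩ = 0 := by
      unfold E2_s
      rw [if_neg]
      show q + 1 ≠ i + 1
      omega
    rw [h1, h2, mul_zero, zero_add, zero_add]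
    have hlt : i - 1 < q - 1 := by omega
    rw [Finset.sum_eq_single (⟨i - 1, hlt⟩ : Fin (q - 1))]
    · have h3 : E2_s k q (i + 1) j ⟨(⟨i - 1, hlt⟩ : Fin (q - 1)) + 2, by
          show i - 1 + 2 < q + 2
          omega⟩ = X ^ j := by
        unfold E2_s
        rw [if_pos]
        show i - 1 + 2 = i + 1
        omega
      rw [h3, ← pow_add]
      congr 2
      show q * q * (i - 1 + 1) = _
      rw [Nat.sub_add_cancel h0]
    · intro m _ hm
      have h3 : E2_s k q (i + 1) j ⟨m + 2, by omega⟩ = 0 := by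
        unfold E2_s
        rw [if_neg]
        show (m : ℕ) + 2 ≠ i + 1
        intro h
        apply hm
        apply Fin.ext
        show (m : ℕ) = i - 1
        omega
      rw [h3, mul_zero]
    · intro h
      exact absurd (Finset.mem_univ _) h

private theorem E2_s1 {k : Type} [Field k] (p : ℕ) [Fact p.Prime] [CharP k p] {q r : ℕ}
    (hq : q = p ^ r) (hq2 : 2 ≤ q) {j : ℕ} (hj : j < q * (q - 1)) :
    E2_P k q ((1 + ∑ m ∈ Finset.range (q - 1), X ^ (q * ((q + 1) * m + 1))) * X ^ j) := by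
  refine ⟨E2_s k q 1 j, E2_s_deg hj, ?_⟩
  rw [E2_G p hq hq2]
  have h1 : E2_s k q 1 j 1 = X ^ j := by
    unfold E2_s
    rw [if_pos]
    rw [Fin.val_one]
  have h2 : E2_s k q 1 j ⟨q + 1, by omega⟩ = 0 := by
    unfold E2_s
    rw [if_neg]
    show q + 1 ≠ 1
    omega
  have h3 : ∀ m : Fin (q - 1), E2_s k q 1 j ⟨m + 2, by omega⟩ = 0 := by
    intro m
    unfold E2_s
    rw [if_neg]
    show (m : ℕ) + 2 ≠ 1
    omega
  have h4 : ∑ m : Fin (q - 1), (X : k[X]) ^ (q * q * ((m : ℕ) + 1)) *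
      E2_s k q 1 j ⟨m + 2, by omega⟩ = 0 :=
    Finset.sum_eq_zero (fun m _ => by rw [h3 m, mul_zero])
  rw [h1, h2, h4, add_zero, add_zero]

private theorem E2_two {k : Type} [Field k] (p : ℕ) [Fact p.Prime] [CharP k p] {q r : ℕ}
    (hq : q = p ^ r) (hq2 : 2 ≤ q) {m c : ℕ} (hm : m ≤ q - 2) (hc : c < q) :
    E2_P k q (X ^ (q * q * m + (q * (q - 1) + c))) := by
  obtain ⟨t, ht⟩ : ∃ t, q = t + 2 := ⟨q - 2, by omega⟩
  -- the exponent `t - m` plays the role of `r`
  have hj : q * (t - m) + c < q * (q - 1) := by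
    have h1 : q * (t - m) + c < q * (t - m) + q := by omega
    have h2 : q * (t - m) + q = q * (t - m + 1) := by ring
    have h3 : q * (t - m + 1) ≤ q * (q - 1) := Nat.mul_le_mul_left _ (by omega)
    omega
  have h := E2_s1 (k := k) p hq hq2 hj
  rw [add_mul, one_mul, Finset.sum_mul] at h
  have hmem : m ∈ Finset.range (q - 1) := Finset.mem_range.mpr (by omega)
  rw [← Finset.add_sum_erase _ _ hmem] at h
  have hA : E2_P k q (X ^ (q * (t - m) + c)) := by
    have := E2_one (k := k) p hq hq2 (i := 0) (by omega) hj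
    rwa [mul_zero, zero_add] at this
  have hB : E2_P k q (∑ x ∈ (Finset.range (q - 1)).erase m,
      (X : k[X]) ^ (q * ((q + 1) * x + 1)) * X ^ (q * (t - m) + c)) := by
    apply E2_sum
    intro x hx
    rw [Finset.mem_erase, Finset.mem_range] at hx
    obtain ⟨hxm, hxq⟩ := hx
    rw [← pow_add]
    obtain ⟨u, hu⟩ : ∃ u, t = m + u := ⟨t - m, by omega⟩
    have hu' : t - m = u := by omega
    rw [hu']
    rcases Nat.lt_or_ge (x + 1 + u) (q - 1) with h1 | h1
    · have h2 : q * ((q + 1) * x + 1) + (q * u + c) = q * q * x + (q * (x + 1 + u) + c) := by ring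
      rw [h2]
      apply E2_one p hq hq2 (by omega)
      have h3 : q * (x + 1 + u) + c < q * (x + 1 + u) + q := by omega
      have h4 : q * (x + 1 + u) + q = q * (x + 1 + u + 1) := by ring
      have h5 : q * (x + 1 + u + 1) ≤ q * (q - 1) := Nat.mul_le_mul_left _ (by omega)
      omega
    · have h2 : q ≤ x + 1 + u := by omega
      obtain ⟨v, hv⟩ : ∃ v, x + 1 + u = q + v := ⟨x + 1 + u - q, by omega⟩
      have h3 : q * ((q + 1) * x + 1) + (q * u + c) = q * q * (x + 1) + (q * v + c) := by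
        have h4 : q * ((q + 1) * x + 1) + (q * u + c) = q * q * x + q * (x + 1 + u) + c := by ring
        rw [h4, hv]
        ring
      rw [h3]
      apply E2_one p hq hq2 (by omega)
      have h6 : q * v + c < q * v + q := by omega
      have h7 : q * v + q = q * (v + 1) := by ring
      have h8 : q * (v + 1) ≤ q * (q - 1) := Nat.mul_le_mul_left _ (by omega)
      omega
  have h9 := E2_sub (E2_sub h hA) hB
  have h10 : q * ((q + 1) * m + 1) + (q * (t - m) + c) = q * q * m + (q * (q - 1) + c) := by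
    obtain ⟨u, hu⟩ : ∃ u, t = m + u := ⟨t - m, by omega⟩
    have hu' : t - m = u := by omega
    have hq1 : q - 1 = m + u + 1 := by omega
    rw [hu', hq1]
    ring
  have h11 : (X : k[X]) ^ (q * (t - m) + c) +
      (X ^ (q * ((q + 1) * m + 1)) * X ^ (q * (t - m) + c) +
        ∑ x ∈ (Finset.range (q - 1)).erase m,
          (X : k[X]) ^ (q * ((q + 1) * x + 1)) * X ^ (q * (t - m) + c)) -
      X ^ (q * (t - m) + c) - ∑ x ∈ (Finset.range (q - 1)).erase m,
          (X : k[X]) ^ (q * ((q + 1) * x + 1)) * X ^ (q * (t - m) + c) =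
      X ^ (q * q * m + (q * (q - 1) + c)) := by
    rw [← h10, pow_add _ (q * ((q + 1) * m + 1))]
    ring
  rwa [h11] at h9

private theorem E2_three {k : Type} [Field k] (p : ℕ) [Fact p.Prime] [CharP k p] {q r : ℕ}
    (hq : q = p ^ r) (hq2 : 2 ≤ q) {e : ℕ} (he : e < (q + 1) * (q * (q - 1))) :
    E2_P k q (X ^ e) := by
  have hpos : 0 < q * q := Nat.mul_pos (by omega) (by omega)
  have hmod : e % (q * q) < q * q := Nat.mod_lt _ hpos
  have hdiv : q * q * (e / (q * q)) + e % (q * q) = e := Nat.div_add_mod e (q * q)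
  obtain ⟨t, ht⟩ : ∃ t, q = t + 1 := ⟨q - 1, by omega⟩
  have hq1 : q - 1 = t := by omega
  have hR : (q + 1) * (q * (q - 1)) = q * q * (q - 1) + q * (q - 1) := by ring
  have hqq : q * q = q * (q - 1) + q := by
    rw [hq1]
    nth_rewrite 2 [ht]
    ring
  have hi : e / (q * q) ≤ q - 1 := by
    by_contra hcon
    push Not at hcon
    have h1 : q - 1 + 1 ≤ e / (q * q) := hcon
    have h2 : q * q * (q - 1 + 1) ≤ q * q * (e / (q * q)) := Nat.mul_le_mul_left _ h1
    have h3 : q * q * (q - 1 + 1) = q * q * (q - 1) + q * q := by ring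
    omega
  rcases Nat.lt_or_ge (e % (q * q)) (q * (q - 1)) with hj | hj
  · rw [← hdiv]
    exact E2_one p hq hq2 hi hj
  · have hi2 : e / (q * q) ≤ q - 2 := by
      by_contra hcon
      push Not at hcon
      have h1 : e / (q * q) = q - 1 := by omega
      rw [h1] at hdiv
      omega
    obtain ⟨c, hc⟩ : ∃ c, e % (q * q) = q * (q - 1) + c := ⟨e % (q * q) - q * (q - 1), by omega⟩
    rw [← hdiv, hc]
    exact E2_two p hq hq2 hi2 (by omega)

theorem γ₀_free {k : Type} [Field k] (p : ℕ) [Fact p.Prime] [CharP k p] {q r : ℕ} (hq : q = p ^ r)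
    (hr : r ≠ 0) (f : k[X]) (hf : f.degree < ((q + 1) * (q * (q - 1)) : ℕ)) :
    ∃ a : Fin (q + 2) → k[X], (∀ i, (a i).degree < (q * (q - 1) : ℕ)) ∧
      G q (fun ij => (H₀ q ij.1 ij.2 : k)) (γ₀ q) a = f := by
  have hp2 : 2 ≤ p := (Fact.out : p.Prime).two_le
  have hq2 : 2 ≤ q := by
    rw [hq]
    calc 2 ≤ p := hp2
      _ = p ^ 1 := (pow_one p).symm
      _ ≤ p ^ r := Nat.pow_le_pow_right (by omega) (Nat.one_le_iff_ne_zero.mpr hr)
  change E2_P k q f
  have h1 : f = ∑ e ∈ Finset.range ((q + 1) * (q * (q - 1))), C (f.coeff e) * X ^ e := by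
    ext n
    rw [finsetSum_coeff]
    simp only [coeff_C_mul, coeff_X_pow, mul_ite, mul_one, mul_zero]
    rw [Finset.sum_ite_eq]
    split_ifs with hn
    · rfl
    · rw [Finset.mem_range, not_lt] at hn
      exact coeff_eq_zero_of_degree_lt (lt_of_lt_of_le hf (by exact_mod_cast hn))
  rw [h1]
  apply E2_sum
  intro e he
  exact E2_smul _ (E2_three p hq hq2 (Finset.mem_range.mp he))

end QB46
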