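import Pool.Agent.LibQB46.G1

/-!
[QB46 G2] (MEDIUM; may cite G1 as stated) Every nonsingular q-bic form over `k` is equivalent to the generic one.

PLAN. `K = FractionRing (MvPolynomial (Fin N × Fin N) k)`, `B = gB q H` algebraically independent, `R' = Algebra.adjoin k (Set.range B)`. `hB.aevalEquiv : MvPolynomial _ k ≃ₐ[k] R'`; `ψ : R' →ₐ[k] Ω` = `(aeval b).comp hB.aevalEquiv.symm`, injective as `b` is algebraically independent, `ψ (B ij) = b ij`. `K` is algebraic over `R'` (algebraic over its field of fractions `fld k B`: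
`IsAlgebraic` over `fld k B` gives over `adjoin`, e.g. `IsFractionRing.comap_isAlgebraic_iff` / clear denominators). `letI : Algebra R' Ω := ψ.toRingHom.toAlgebra`, `IsAlgClosed.lift : K →ₐ[R'] Ω` =: φ. `A u i = φ (X (u,i))`. Apply φ to the definition of `gB`; `φ (algebraMap k K c) = algebraMap k Ω c`.
-/

set_option autoImplicit false

namespace QB46

open MvPolynomial

private theorem G2_lift {k K Ω : Type} [Field k] [Field K] [Field Ω] [Algebra k K] [Algebra k Ω]
    [IsAlgClosed Ω] (F : IntermediateField k K) (halg : ∀ x : K, IsAlgebraic F x) (ψ : F →ₐ[k] Ω) :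
    ∃ φ : K →+* Ω, (∀ z : F, φ (z : K) = ψ z) ∧ ∀ c : k, φ (algebraMap k K c) = algebraMap k Ω c := by
  letI : Algebra F Ω := ψ.toRingHom.toAlgebra
  haveI : Algebra.IsAlgebraic F K := ⟨halg⟩
  let φ : K →ₐ[F] Ω := IsAlgClosed.lift
  have h1 : ∀ z : F, φ (z : K) = ψ z := fun z => φ.commutes z
  refine ⟨φ.toRingHom, h1, ?_⟩
  intro c
  have h2 : algebraMap k K c = ((algebraMap k F c : F) : K) := rfl
  have h3 := h1 (algebraMap k F c)
  rw [ψ.commutes] at h3
  rw [h2]
  exact h3

private theorem G2_emb {k K Ω I : Type} [Field k] [Field K] [Field Ω] [Algebra k K] [Algebra k Ω]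
    {B : I → K} (hB : AlgebraicIndependent k B) {b : I → Ω} (hb : AlgebraicIndependent k b) :
    ∃ ψ : IntermediateField.adjoin k (Set.range B) →ₐ[k] Ω, ∀ (i : I)
      (h : B i ∈ IntermediateField.adjoin k (Set.range B)), ψ ⟨B i, h⟩ = b i := by
  refine ⟨((IntermediateField.val _).comp hb.aevalEquivField.toAlgHom).comp
    hB.aevalEquivField.symm.toAlgHom, ?_⟩
  intro i h
  have h1 : hB.aevalEquivField.symm ⟨B i, h⟩ =
      algebraMap (MvPolynomial I k) (FractionRing (MvPolynomial I k)) (X i) := by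
    rw [AlgEquiv.symm_apply_eq]
    apply Subtype.ext
    rw [hB.aevalEquivField_algebraMap_apply_coe, aeval_X]
  change ((hb.aevalEquivField (hB.aevalEquivField.symm ⟨B i, h⟩) :
    IntermediateField.adjoin k (Set.range b)) : Ω) = b i
  rw [h1, hb.aevalEquivField_algebraMap_apply_coe, aeval_X]

theorem generic {k : Type} [Field k] (p : ℕ) [Fact p.Prime] [CharP k p] {q r : ℕ}
    (hq : q = p ^ r) (hr : r ≠ 0) {N : ℕ} (H : Matrix (Fin N) (Fin N) k) (hH : H.det ≠ 0)
    {Ω : Type} [Field Ω] [Algebra k Ω] [IsAlgClosed Ω] (b : Fin N × Fin N → Ω)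
    (hb : AlgebraicIndependent k b) :
    ∃ A : Matrix (Fin N) (Fin N) Ω, ∀ i j,
      b (i, j) = ∑ u, ∑ v, A u i ^ q * algebraMap k Ω (H u v) * A v j := by
  obtain ⟨hB, halg⟩ := gB_algInd p hq hr H hH
  obtain ⟨ψ, hψ⟩ := G2_emb hB hb
  obtain ⟨φ, h1, h2⟩ := G2_lift (IntermediateField.adjoin k (Set.range (gB q H))) halg ψ
  refine ⟨fun u i => φ (algebraMap (MvPolynomial (Fin N × Fin N) k) _ (X (u, i))), ?_⟩
  intro i j
  have h3 : gB q H (i, j) ∈ IntermediateField.adjoin k (Set.range (gB q H)) :=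
    IntermediateField.subset_adjoin k _ ⟨(i, j), rfl⟩
  have h4 := h1 ⟨gB q H (i, j), h3⟩
  rw [hψ] at h4
  rw [← h4]
  change φ (gB q H (i, j)) = _
  unfold gB
  simp only [map_sum, map_mul, map_pow, h2]

end QB46
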