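import Pool.Agent.LibQB46.Q1
import Pool.Agent.LibQB46.E2
import Pool.Agent.LibQB46.D4
import Pool.Agent.LibQB46.G2
import Pool.Agent.LibQ9.B4

/-!
[QB46 F1] (MEDIUM, assembly; may cite Q1, E1, E2, D4, G2 and LibQ9 B4 `free_transfer` as stated) Every nonsingular q-bic form has a free curve.

PLAN. `subst_G`: with `b (i,j) = ∑ A u i ^ q H u v A v j` and `δ' u = ∑ C (A u i) δ_i`, `a' u = ∑ C (A u i) a_i`: `G q (H) δ' a' = G q b δ a` (`(∑ C (A u i) δ_i)^q = ∑ C (A u i ^ q) δ_i^q` by `sum_pow_char_pow`, exchange sums). `exists_free_qbic`: `q ≥ 2` (`q = p^r`). `Q9.Free (qF q (H₀ q)) (q(q-1)) (γ₀ q)` over `k` by `γ₀_deg`, `γ₀_on`, `γ₀_free`, `aeval_E`, `grad_G` (`q (q-1) ≥ 1`).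
`deform`: `Ω, b, δ`. `generic`: `A`. `δ' u = ∑_i C (A u i) * δ i` is free for the form `qF q H` over `Ω`: degree `≤ d`, `aeval_E`, `E = G γ γ`, `subst_G`, `grad_G`. B4 `free_transfer` brings it to `k` (see its statement for the exact form).
-/

set_option autoImplicit false

namespace QB46

open Polynomial

private theorem F1_E_eq_G {S : Type} [CommRing S] (q : ℕ) {N : ℕ} (b : Fin N × Fin N → S)
    (γ : Fin N → Polynomial S) : E q b γ = G q b γ γ := rfl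

private theorem F1_swap {M : Type} [AddCommMonoid M] {N : ℕ}
    (t : Fin N → Fin N → Fin N → Fin N → M) :
    ∑ u, ∑ v, ∑ i, ∑ j, t u v i j = ∑ i, ∑ j, ∑ u, ∑ v, t u v i j := by
  calc ∑ u, ∑ v, ∑ i, ∑ j, t u v i j
      = ∑ u, ∑ i, ∑ v, ∑ j, t u v i j := Finset.sum_congr rfl fun u _ => Finset.sum_comm
    _ = ∑ i, ∑ u, ∑ v, ∑ j, t u v i j := Finset.sum_comm
    _ = ∑ i, ∑ u, ∑ j, ∑ v, t u v i j :=
        Finset.sum_congr rfl fun i _ => Finset.sum_congr rfl fun u _ => Finset.sum_comm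
    _ = ∑ i, ∑ j, ∑ u, ∑ v, t u v i j := Finset.sum_congr rfl fun i _ => Finset.sum_comm

theorem subst_G {k Ω : Type} [Field k] [Field Ω] [Algebra k Ω] (p : ℕ) [Fact p.Prime] [CharP k p]
    {q r : ℕ} (hq : q = p ^ r) {N : ℕ} (H : Matrix (Fin N) (Fin N) k) (b : Fin N × Fin N → Ω)
    (A : Matrix (Fin N) (Fin N) Ω)
    (hA : ∀ i j, b (i, j) = ∑ u, ∑ v, A u i ^ q * algebraMap k Ω (H u v) * A v j)
    (δ a : Fin N → Polynomial Ω) :
    G q (fun ij => algebraMap k Ω (H ij.1 ij.2)) (fun u => ∑ i, C (A u i) * δ i)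
      (fun u => ∑ i, C (A u i) * a i) = G q b δ a := by
  have hc : CharP Ω p := charP_of_injective_algebraMap (algebraMap k Ω).injective p
  have hpow : ∀ u, (∑ i, C (A u i) * δ i) ^ q = ∑ i, C (A u i ^ q) * δ i ^ q := by
    intro u
    rw [hq, sum_pow_char_pow]
    refine Finset.sum_congr rfl fun i _ => ?_
    rw [mul_pow, ← C_pow]
  have h1 : G q (fun ij => algebraMap k Ω (H ij.1 ij.2)) (fun u => ∑ i, C (A u i) * δ i)
      (fun u => ∑ i, C (A u i) * a i) = ∑ u, ∑ v, ∑ i, ∑ j,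
        C (A u i ^ q * algebraMap k Ω (H u v) * A v j) * δ i ^ q * a j := by
    unfold G
    refine Finset.sum_congr rfl fun u _ => Finset.sum_congr rfl fun v _ => ?_
    change C (algebraMap k Ω (H u v)) * (∑ i, C (A u i) * δ i) ^ q * (∑ j, C (A v j) * a j) = _
    rw [hpow u, mul_assoc, Finset.sum_mul, Finset.mul_sum]
    refine Finset.sum_congr rfl fun i _ => ?_
    rw [Finset.mul_sum, Finset.mul_sum]
    refine Finset.sum_congr rfl fun j _ => ?_
    rw [C_mul, C_mul]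
    ring
  have h2 : G q b δ a = ∑ i, ∑ j, ∑ u, ∑ v,
        C (A u i ^ q * algebraMap k Ω (H u v) * A v j) * δ i ^ q * a j := by
    unfold G
    refine Finset.sum_congr rfl fun i _ => Finset.sum_congr rfl fun j _ => ?_
    rw [hA i j, map_sum, Finset.sum_mul, Finset.sum_mul]
    refine Finset.sum_congr rfl fun u _ => ?_
    rw [map_sum, Finset.sum_mul, Finset.sum_mul]
  rw [h1, h2]
  exact F1_swap fun u v i j => C (A u i ^ q * algebraMap k Ω (H u v) * A v j) * δ i ^ q * a j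

private theorem F1_two_le {p q r : ℕ} (hp : p.Prime) (hq : q = p ^ r) (hr : r ≠ 0) : 2 ≤ q := by
  rw [hq]
  calc 2 ≤ p := hp.two_le
    _ = p ^ 1 := (pow_one p).symm
    _ ≤ p ^ r := Nat.pow_le_pow_right hp.pos (Nat.one_le_iff_ne_zero.2 hr)

private theorem F1_free₀ {k : Type} [Field k] (p : ℕ) [Fact p.Prime] [CharP k p]
    {q r : ℕ} (hq : q = p ^ r) (hr : r ≠ 0) :
    Q9.Free (n := q + 1) (qF q (H₀ q : Matrix (Fin (q + 2)) (Fin (q + 2)) k)) (q * (q - 1))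
      (γ₀ q : Fin (q + 2) → k[X]) := by
  have h2 : 2 ≤ q := F1_two_le Fact.out hq hr
  have hb : (fun ij : Fin (q + 2) × Fin (q + 2) => algebraMap k k (H₀ q ij.1 ij.2)) =
      fun ij => (H₀ q ij.1 ij.2 : k) := rfl
  refine ⟨?_, ⟨fun i => γ₀_deg h2 i, ?_⟩, ?_⟩
  · have : 1 ≤ q - 1 := by omega
    exact Nat.one_le_iff_ne_zero.2 (Nat.mul_ne_zero (by omega) (by omega))
  · have h := aeval_E (k := k) (κ := k) q (H₀ q : Matrix (Fin (q + 2)) (Fin (q + 2)) k) (γ₀ q)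
    rw [hb, γ₀_on p hq hr] at h
    exact h
  · intro f hf
    obtain ⟨a, ha, hG⟩ := γ₀_free p hq hr f hf
    refine ⟨a, ha, ?_⟩
    have h := grad_G (k := k) (κ := k) p hq hr
      (H₀ q : Matrix (Fin (q + 2)) (Fin (q + 2)) k) (γ₀ q) a
    rw [hb, hG] at h
    exact h

private theorem F1_deg_lt {Ω : Type} [Field Ω] {N d : ℕ} (c : Fin N → Ω) (a : Fin N → Polynomial Ω)
    (ha : ∀ i, (a i).degree < (d : ℕ)) : (∑ i, C (c i) * a i).degree < (d : ℕ) := by
  rw [← mem_degreeLT]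
  refine Submodule.sum_mem _ fun i _ => ?_
  rw [← smul_eq_C_mul]
  exact Submodule.smul_mem _ _ (mem_degreeLT.2 (ha i))

theorem exists_free_qbic {k : Type} [Field k] [IsAlgClosed k] (p : ℕ) [Fact p.Prime] [CharP k p]
    {q r : ℕ} (hq : q = p ^ r) (hr : r ≠ 0) (H : Matrix (Fin (q + 2)) (Fin (q + 2)) k)
    (hH : H.det ≠ 0) :
    ∃ (d : ℕ) (γ : Fin (q + 2) → k[X]), Q9.Free (n := q + 1) (qF q H) d γ := by
  have hF := F1_free₀ (k := k) p hq hr
  obtain ⟨Ω, iF, iA, b, δ, hΩ, hb, hdeg, hE, hs⟩ := deform p hq hr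
    (H₀ q : Matrix (Fin (q + 2)) (Fin (q + 2)) k) (γ₀ q) hF
  obtain ⟨A, hA⟩ := generic p hq hr H hH b hb
  have hfree : Q9.Free (n := q + 1) (qF q H) (q * (q - 1))
      (fun u => ∑ i, C (A u i) * δ i) := by
    refine ⟨hF.1, ⟨fun u => ?_, ?_⟩, ?_⟩
    · exact natDegree_sum_le_of_forall_le _ _ fun i _ =>
        le_trans (natDegree_C_mul_le _ _) (hdeg i)
    · have h := aeval_E (k := k) (κ := Ω) q H (fun u => ∑ i, C (A u i) * δ i)
      rw [F1_E_eq_G, subst_G p hq H b A hA δ δ, ← F1_E_eq_G, hE] at h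
      exact h
    · intro f hf
      obtain ⟨a, ha, hG⟩ := hs f hf
      refine ⟨fun u => ∑ i, C (A u i) * a i, fun u => F1_deg_lt (A u) a ha, ?_⟩
      have h := grad_G (k := k) (κ := Ω) p hq hr H (fun u => ∑ i, C (A u i) * δ i)
        (fun u => ∑ i, C (A u i) * a i)
      rw [subst_G p hq H b A hA δ a, hG] at h
      exact h
  obtain ⟨γ', h', -⟩ := Q9.free_transfer (n := q + 1) (qF q H) (q * (q - 1)) _ hfree
  exact ⟨q * (q - 1), γ', h'⟩

end QB46
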