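import Pool.Agent.LibQB46.T1
import Pool.Agent.LibQ9.P4

/-!
[QB46 G1] (MEDIUM/STRONG; may cite T1 and LibQ9 P4 as stated) The matrix `X^(q)^T H X` of the generic matrix `X` is generic again.

PLAN. `K = FractionRing (MvPolynomial (Fin N × Fin N) k)`, `X (u,i)` the variables in `K`, `B (i,j) = ∑_{u,v} X (u,i)^q H u v X (v,j)`. P4 with the family `z = X` and `q := B` (`B (i,j) ∈ fld k X`): let `D : Derivation k (fld k X) K` with `D (B (i,j)) = 0` for all `i, j`. `D (x^q) = q • .. = 0` (`(q : K) = 0`), so
`0 = D (B (i,j)) = ∑_{u,v} X (u,i)^q H u v D (X (v,j))`: the matrix `P i v = ∑_u X (u,i)^q H u v` satisfies `P * (D X) = 0`, and `det P = (det X)^q * det H ≠ 0` (`det` of the matrix of the `X (u,i)^q` is `(det X)^q` by `RingHom.map_det` for the Frobenius `iterateFrobenius`; `Matrix.det_mvPolynomialX_ne_zero` gives `det X ≠ 0`). So `D X = 0`.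
`td_le_of_der` with `M = ⊥`, `r = 0`: `td k X ≤ td k B`, `td_of_algInd` (the `X` are algebraically independent) and `algInd_of_td`: `B` is algebraically independent. `sep_of_der`: every `X (u,i)` is separable, so algebraic, over `fld k B`, so `K` is algebraic over `fld k B` (`fld k X = ⊤`, `IntermediateField` of algebraic elements).
-/

set_option autoImplicit false

namespace QB46

open MvPolynomial

/-- the matrix `X^(q)^T H X` of the generic matrix in the field of fractions of `k[X]` -/
noncomputable def gB {k : Type} [Field k] (q : ℕ) {N : ℕ} (H : Matrix (Fin N) (Fin N) k)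
    (ij : Fin N × Fin N) : FractionRing (MvPolynomial (Fin N × Fin N) k) :=
  ∑ u, ∑ v, algebraMap (MvPolynomial (Fin N × Fin N) k) _ (X (u, ij.1)) ^ q *
    algebraMap k _ (H u v) * algebraMap (MvPolynomial (Fin N × Fin N) k) _ (X (v, ij.2))

/-- the generic point -/
private noncomputable def G1_z (k : Type) [Field k] (N : ℕ) (a : Fin N × Fin N) :
    FractionRing (MvPolynomial (Fin N × Fin N) k) :=
  algebraMap (MvPolynomial (Fin N × Fin N) k) _ (X a)

private theorem G1_ind (k : Type) [Field k] (N : ℕ) : AlgebraicIndependent k (G1_z k N) := by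
  have h1 : AlgebraicIndependent k (fun a : Fin N × Fin N => (X a : MvPolynomial (Fin N × Fin N) k)) :=
    MvPolynomial.algebraicIndependent_X _ _
  exact h1.map' (f := IsScalarTower.toAlgHom k (MvPolynomial (Fin N × Fin N) k)
    (FractionRing (MvPolynomial (Fin N × Fin N) k)))
    (IsFractionRing.injective (MvPolynomial (Fin N × Fin N) k) _)

private theorem G1_det (k : Type) [Field k] (N : ℕ) :
    (Matrix.of fun u i : Fin N => G1_z k N (u, i)).det ≠ 0 := by
  have h1 : (Matrix.of fun u i : Fin N => G1_z k N (u, i)) =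
      (algebraMap (MvPolynomial (Fin N × Fin N) k)
        (FractionRing (MvPolynomial (Fin N × Fin N) k))).mapMatrix
        (Matrix.mvPolynomialX (Fin N) (Fin N) k) := by
    ext u i
    rfl
  rw [h1, ← RingHom.map_det]
  intro h2
  exact Matrix.det_mvPolynomialX_ne_zero (Fin N) k
    ((map_eq_zero_iff _ (IsFractionRing.injective (MvPolynomial (Fin N × Fin N) k) _)).1 h2)

/-- a system with invertible matrix has only the zero solution -/
private theorem G1_solve {K : Type} [Field K] {N : ℕ} (P D : Matrix (Fin N) (Fin N) K)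
    (hP : P.det ≠ 0) (h : P * D = 0) : D = 0 := by
  have h1 : P⁻¹ * (P * D) = 0 := by rw [h, Matrix.mul_zero]
  rwa [← Matrix.mul_assoc, Matrix.nonsing_inv_mul P (isUnit_iff_ne_zero.2 hP), Matrix.one_mul] at h1

private theorem G1_P {k : Type} [Field k] (p : ℕ) [Fact p.Prime] [CharP k p] {q r : ℕ}
    (hq : q = p ^ r) {N : ℕ} (H : Matrix (Fin N) (Fin N) k) (hH : H.det ≠ 0) :
    (Matrix.of fun i v : Fin N => ∑ u, G1_z k N (u, i) ^ q *
      algebraMap k (FractionRing (MvPolynomial (Fin N × Fin N) k)) (H u v)).det ≠ 0 := by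
  haveI : CharP (FractionRing (MvPolynomial (Fin N × Fin N) k)) p :=
    charP_of_injective_algebraMap
      (algebraMap k (FractionRing (MvPolynomial (Fin N × Fin N) k))).injective p
  haveI : ExpChar (FractionRing (MvPolynomial (Fin N × Fin N) k)) p := ExpChar.prime Fact.out
  have h1 : (Matrix.of fun i v : Fin N => ∑ u, G1_z k N (u, i) ^ q *
      algebraMap k (FractionRing (MvPolynomial (Fin N × Fin N) k)) (H u v)) =
      ((iterateFrobenius (FractionRing (MvPolynomial (Fin N × Fin N) k)) p r).mapMatrix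
        (Matrix.of fun u i : Fin N => G1_z k N (u, i))).transpose *
      (algebraMap k (FractionRing (MvPolynomial (Fin N × Fin N) k))).mapMatrix H := by
    ext i v
    rw [Matrix.mul_apply, Matrix.of_apply]
    refine Finset.sum_congr rfl fun u _ => ?_
    rw [Matrix.transpose_apply, RingHom.mapMatrix_apply, Matrix.map_apply, Matrix.of_apply,
      iterateFrobenius_def, ← hq]
    rfl
  rw [h1, Matrix.det_mul, Matrix.det_transpose, ← RingHom.map_det, ← RingHom.map_det]
  refine mul_ne_zero ?_ ?_
  · rw [iterateFrobenius_def]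
    exact pow_ne_zero _ (G1_det k N)
  · intro h2
    exact hH ((map_eq_zero _).1 h2)

private theorem G1_mem {k : Type} [Field k] (q : ℕ) {N : ℕ} (H : Matrix (Fin N) (Fin N) k)
    (ij : Fin N × Fin N) : gB q H ij ∈ Q9.fld k (G1_z k N) := by
  unfold gB
  have hz : ∀ a, G1_z k N a ∈ Q9.fld k (G1_z k N) := fun a => (Q9.fz k (G1_z k N) a).2
  refine sum_mem fun u _ => sum_mem fun v _ => mul_mem (mul_mem (pow_mem (hz _) _) ?_) (hz _)
  exact (Q9.fld k (G1_z k N)).algebraMap_mem _

private theorem G1_der {k : Type} [Field k] (p : ℕ) [Fact p.Prime] [CharP k p] {q r : ℕ}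
    (hq : q = p ^ r) (hr : r ≠ 0) {N : ℕ} (H : Matrix (Fin N) (Fin N) k) (hH : H.det ≠ 0)
    (D : Derivation k (Q9.fld k (G1_z k N)) (FractionRing (MvPolynomial (Fin N × Fin N) k)))
    (hD : ∀ ij, D ⟨gB q H ij, G1_mem q H ij⟩ = 0) (a : Fin N × Fin N) :
    D (Q9.fz k (G1_z k N) a) = 0 := by
  haveI : CharP (FractionRing (MvPolynomial (Fin N × Fin N) k)) p :=
    charP_of_injective_algebraMap
      (algebraMap k (FractionRing (MvPolynomial (Fin N × Fin N) k))).injective p
  have hq0 : ((q : ℕ) : FractionRing (MvPolynomial (Fin N × Fin N) k)) = 0 := by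
    rw [CharP.cast_eq_zero_iff _ p, hq]
    exact dvd_pow_self p hr
  have hpow : ∀ x : Q9.fld k (G1_z k N), D (x ^ q) = 0 := by
    intro x
    rw [D.leibniz_pow, ← Nat.cast_smul_eq_nsmul (FractionRing (MvPolynomial (Fin N × Fin N) k)), hq0,
      zero_smul]
  have hB : ∀ i j, (⟨gB q H (i, j), G1_mem q H (i, j)⟩ : Q9.fld k (G1_z k N)) =
      ∑ u, ∑ v, Q9.fz k (G1_z k N) (u, i) ^ q * algebraMap k (Q9.fld k (G1_z k N)) (H u v) *
        Q9.fz k (G1_z k N) (v, j) := by
    intro i j
    apply Subtype.ext
    push_cast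
    rfl
  have hmat : (Matrix.of fun i v : Fin N => ∑ u, G1_z k N (u, i) ^ q *
      algebraMap k (FractionRing (MvPolynomial (Fin N × Fin N) k)) (H u v)) *
      (Matrix.of fun v j : Fin N => D (Q9.fz k (G1_z k N) (v, j))) = 0 := by
    ext i j
    rw [Matrix.mul_apply, Matrix.zero_apply, ← hD (i, j), hB, map_sum]
    have h1 : ∀ u, D (∑ v, Q9.fz k (G1_z k N) (u, i) ^ q *
        algebraMap k (Q9.fld k (G1_z k N)) (H u v) * Q9.fz k (G1_z k N) (v, j)) =
        ∑ v, G1_z k N (u, i) ^ q *
          algebraMap k (FractionRing (MvPolynomial (Fin N × Fin N) k)) (H u v) *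
          D (Q9.fz k (G1_z k N) (v, j)) := by
      intro u
      rw [map_sum]
      refine Finset.sum_congr rfl fun v _ => ?_
      rw [D.leibniz, D.leibniz, hpow, D.map_algebraMap, smul_zero, smul_zero, add_zero, smul_zero,
        add_zero]
      rfl
    rw [Finset.sum_congr rfl fun u _ => h1 u, Finset.sum_comm]
    refine Finset.sum_congr rfl fun v _ => ?_
    rw [Matrix.of_apply, Matrix.of_apply, Finset.sum_mul]
  have h2 := G1_solve _ _ (G1_P p hq H hH) hmat
  obtain ⟨v, j⟩ := a
  exact congrFun (congrFun h2 v) j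

private theorem G1_top (k : Type) [Field k] (N : ℕ) : Q9.fld k (G1_z k N) = ⊤ := by
  rw [eq_top_iff]
  intro x _
  obtain ⟨a, b, _, rfl⟩ := IsFractionRing.div_surjective (A := MvPolynomial (Fin N × Fin N) k) x
  have h : ∀ f : MvPolynomial (Fin N × Fin N) k,
      algebraMap (MvPolynomial (Fin N × Fin N) k) (FractionRing (MvPolynomial (Fin N × Fin N) k)) f ∈
        Q9.fld k (G1_z k N) := by
    intro f
    induction f using MvPolynomial.induction_on with
    | C c =>
      have h1 := (Q9.fld k (G1_z k N)).algebraMap_mem c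
      rwa [IsScalarTower.algebraMap_apply k (MvPolynomial (Fin N × Fin N) k)
        (FractionRing (MvPolynomial (Fin N × Fin N) k))] at h1
    | add p q hp hq =>
      rw [map_add]
      exact add_mem hp hq
    | mul_X p i hp =>
      rw [map_mul]
      exact mul_mem hp (Q9.fz k (G1_z k N) i).2
  exact div_mem (h a) (h b)

theorem gB_algInd {k : Type} [Field k] (p : ℕ) [Fact p.Prime] [CharP k p] {q r : ℕ}
    (hq : q = p ^ r) (hr : r ≠ 0) {N : ℕ} (H : Matrix (Fin N) (Fin N) k) (hH : H.det ≠ 0) :
    AlgebraicIndependent k (gB q H) ∧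
      ∀ x : FractionRing (MvPolynomial (Fin N × Fin N) k), IsAlgebraic (Q9.fld k (gB q H)) x := by
  constructor
  · apply algInd_of_td
    have h1 := Q9.td_le_of_der (G1_z k N) (gB q H) (G1_mem q H) ⊥ 0 (by simp)
      (fun D hD => by
        rw [Submodule.mem_bot]
        funext a
        exact G1_der p hq hr H hH D hD a)
    rw [td_of_algInd _ (G1_ind k N), add_zero] at h1
    exact h1
  · have hsep := fun a => Q9.sep_of_der (G1_z k N) (gB q H) (G1_mem q H)
      (fun D hD => G1_der p hq hr H hH D hD) a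
    intro x
    have hx : x ∈ Q9.fld k (G1_z k N) := by
      rw [G1_top]
      exact IntermediateField.mem_top
    have h1 : IntermediateField.adjoin (Q9.fld k (gB q H)) (Set.range (G1_z k N)) ≤
        algebraicClosure (Q9.fld k (gB q H)) (FractionRing (MvPolynomial (Fin N × Fin N) k)) := by
      rw [IntermediateField.adjoin_le_iff]
      rintro _ ⟨a, rfl⟩
      exact mem_algebraicClosure_iff.2 (hsep a).isIntegral.isAlgebraic
    have h2 : x ∈ IntermediateField.adjoin (Q9.fld k (gB q H)) (Set.range (G1_z k N)) := by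
      have h3 : Q9.fld k (G1_z k N) ≤ (IntermediateField.adjoin (Q9.fld k (gB q H))
          (Set.range (G1_z k N))).restrictScalars k := by
        rw [IntermediateField.adjoin_le_iff]
        exact IntermediateField.subset_adjoin _ _
      exact h3 hx
    exact mem_algebraicClosure_iff.1 (h1 h2)

end QB46
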