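import Pool.Agent.LibQB46.Defs

/-!
[QB46 Q1] (SHORT/MEDIUM, MATHLIB ONLY) Basic facts on the q-bic form `qF q H = ∑ H i j x_i^q x_j`.

PLAN. `qF_hom`: sums of `C * X^q * X` (homogeneous of degree `0 + q + 1`). `qF_map`, `qF_aeval`: simp. `qF_pderiv`: `pderiv j (X i ^ q) = q X i ^ (q-1) pderiv j (X i) = 0` since `(q : κ) = 0`; the derivative of the last factor is `Pi.single`. `qF_grad`: unfold `Q9.grad`, `qF_pderiv`, exchange the two sums.
`qF_smooth`: if all partials vanish at `x` then `Matrix.vecMul (x^q) H = 0`, so `x i ^ q = 0` (`Matrix.eq_zero_of_vecMul_eq_zero` or similar). `det_of_smooth`: if `det H = 0` there is `v ≠ 0` with `vecMul v H = 0` (`Matrix.exists_vecMul_eq_zero_iff`), take `x i` with `x i ^ q = v i` (`IsAlgClosed.exists_pow_nat_eq`).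
`aeval_E`, `grad_G`: unfold, `algebraMap k κ[X] = C ∘ algebraMap k κ` (rfl / `Polynomial.algebraMap_apply`).
-/

set_option autoImplicit false

namespace QB46

open MvPolynomial

theorem qF_hom {κ : Type} [CommRing κ] (q : ℕ) {N : ℕ} (H : Matrix (Fin N) (Fin N) κ) :
    (qF q H).IsHomogeneous (q + 1) := by
  unfold qF
  refine IsHomogeneous.sum _ _ _ fun i _ => IsHomogeneous.sum _ _ _ fun j _ => ?_
  have h := ((isHomogeneous_C (Fin N) (H i j)).mul ((isHomogeneous_X κ i).pow q)).mul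
    (isHomogeneous_X κ j)
  have e : 0 + 1 * q + 1 = q + 1 := by ring
  rw [e] at h
  exact h

theorem qF_map {κ κ' : Type} [CommRing κ] [CommRing κ'] (f : κ →+* κ') (q : ℕ) {N : ℕ}
    (H : Matrix (Fin N) (Fin N) κ) : map f (qF q H) = qF q (H.map f) := by
  simp [qF]

theorem qF_aeval {κ S : Type} [CommRing κ] [CommRing S] [Algebra κ S] (q : ℕ) {N : ℕ}
    (H : Matrix (Fin N) (Fin N) κ) (x : Fin N → S) :
    aeval x (qF q H) = ∑ i, ∑ j, algebraMap κ S (H i j) * x i ^ q * x j := by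
  simp [qF]

theorem qF_pderiv {κ : Type} [CommRing κ] (p : ℕ) [Fact p.Prime] [CharP κ p] {q r : ℕ}
    (hq : q = p ^ r) (hr : r ≠ 0) {N : ℕ} (H : Matrix (Fin N) (Fin N) κ) (j : Fin N) :
    pderiv j (qF q H) = ∑ i, C (H i j) * X i ^ q := by
  have hq0 : (q : κ) = 0 := by
    rw [hq, Nat.cast_pow, CharP.cast_eq_zero, zero_pow hr]
  unfold qF
  rw [map_sum]
  refine Finset.sum_congr rfl fun i _ => ?_
  rw [map_sum]
  have h : ∀ l : Fin N, pderiv j (C (H i l) * X i ^ q * X l : MvPolynomial (Fin N) κ) =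
      if l = j then C (H i l) * X i ^ q else 0 := by
    intro l
    rw [Derivation.leibniz, Derivation.leibniz, Derivation.leibniz_pow, pderiv_C, pderiv_X]
    have h1 : (q • (X i : MvPolynomial (Fin N) κ) ^ (q - 1) • pderiv j (X i) :
        MvPolynomial (Fin N) κ) = 0 := by
      rw [← Nat.cast_smul_eq_nsmul κ, hq0, zero_smul]
    rw [h1]
    simp only [smul_eq_mul]
    by_cases hl : l = j
    · subst hl
      simp
    · rw [if_neg hl, Pi.single_eq_of_ne hl]
      simp
  rw [Finset.sum_congr rfl fun l _ => h l]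
  simp

theorem qF_grad {κ S : Type} [Field κ] [CommRing S] [Algebra κ S] (p : ℕ) [Fact p.Prime]
    [CharP κ p] {q r : ℕ} (hq : q = p ^ r) (hr : r ≠ 0) {N : ℕ} (H : Matrix (Fin N) (Fin N) κ)
    (x w : Fin N → S) :
    Q9.grad (qF q H) x w = ∑ i, ∑ j, algebraMap κ S (H i j) * x i ^ q * w j := by
  unfold Q9.grad
  rw [Finset.sum_comm]
  refine Finset.sum_congr rfl fun j _ => ?_
  rw [qF_pderiv p hq hr, map_sum, Finset.sum_mul]
  refine Finset.sum_congr rfl fun i _ => ?_
  simp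

theorem qF_smooth {k : Type} [Field k] (p : ℕ) [Fact p.Prime] [CharP k p] {q r : ℕ}
    (hq : q = p ^ r) (hr : r ≠ 0) {N : ℕ} (H : Matrix (Fin N) (Fin N) k) (hH : H.det ≠ 0) :
    Q9.Smooth (qF q H) := by
  intro x hx
  have h1 : Matrix.vecMul (fun i => x i ^ q) H = 0 := by
    funext j
    have h2 := hx j
    rw [qF_pderiv p hq hr] at h2
    simp only [map_sum, map_mul, eval_C, map_pow, eval_X] at h2
    change ∑ i, x i ^ q * H i j = 0
    rw [← h2]
    exact Finset.sum_congr rfl fun i _ => mul_comm _ _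
  have h3 := Matrix.eq_zero_of_vecMul_eq_zero hH h1
  funext i
  have h4 : x i ^ q = 0 := congrFun h3 i
  exact eq_zero_of_pow_eq_zero h4

theorem det_of_smooth {k : Type} [Field k] [IsAlgClosed k] (p : ℕ) [Fact p.Prime] [CharP k p]
    {q r : ℕ} (hq : q = p ^ r) (hr : r ≠ 0) {N : ℕ} (H : Matrix (Fin N) (Fin N) k)
    (hs : Q9.Smooth (qF q H)) : H.det ≠ 0 := by
  intro hdet
  obtain ⟨v, hv, hv0⟩ := Matrix.exists_vecMul_eq_zero_iff.2 hdet
  have hqpos : 0 < q := by
    rw [hq]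
    exact pow_pos (Fact.out : p.Prime).pos r
  choose x hx using fun i => IsAlgClosed.exists_pow_nat_eq (v i) hqpos
  have h1 : x = 0 := by
    refine hs x fun j => ?_
    rw [qF_pderiv p hq hr]
    simp only [map_sum, map_mul, eval_C, map_pow, eval_X]
    have h2 : (∑ i, v i * H i j) = 0 := congrFun hv0 j
    rw [← h2]
    exact Finset.sum_congr rfl fun i _ => by rw [hx i, mul_comm]
  apply hv
  funext i
  rw [← hx i, h1]
  exact zero_pow hqpos.ne'

theorem aeval_E {k κ : Type} [Field k] [Field κ] [Algebra k κ] (q : ℕ) {N : ℕ}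
    (H : Matrix (Fin N) (Fin N) k) (γ : Fin N → Polynomial κ) :
    aeval γ (qF q H) = E q (fun ij => algebraMap k κ (H ij.1 ij.2)) γ := by
  rw [qF_aeval]
  rfl

theorem grad_G {k κ : Type} [Field k] [Field κ] [Algebra k κ] (p : ℕ) [Fact p.Prime] [CharP k p]
    {q r : ℕ} (hq : q = p ^ r) (hr : r ≠ 0) {N : ℕ} (H : Matrix (Fin N) (Fin N) k)
    (γ a : Fin N → Polynomial κ) :
    Q9.grad (qF q H) γ a = G q (fun ij => algebraMap k κ (H ij.1 ij.2)) γ a := by
  rw [qF_grad p hq hr]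
  rfl

end QB46
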