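import Pool.Agent.LibQB46.Q1

/-!
[QB46 R1] Forms supported on the monomials `x_i^q x_j` are q-bic forms.
-/

set_option autoImplicit false

namespace QB46

open MvPolynomial

/-- the exponents of the monomials `x_i^q x_j` -/
def qS (q N : ℕ) : Set (Fin N →₀ ℕ) := {m | ∃ i j, m = Finsupp.single i q + Finsupp.single j 1}

theorem qF_monomial {κ : Type} [CommRing κ] (q : ℕ) {N : ℕ} (H : Matrix (Fin N) (Fin N) κ) :
    qF q H = ∑ i, ∑ j, monomial (Finsupp.single i q + Finsupp.single j 1) (H i j) := by
  unfold qF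
  refine Finset.sum_congr rfl fun i _ => Finset.sum_congr rfl fun j _ => ?_
  rw [X_pow_eq_monomial, X, C_mul_monomial, monomial_mul, mul_one, mul_one]

theorem qF_coeff_mem {κ : Type} [CommRing κ] (q : ℕ) {N : ℕ} (H : Matrix (Fin N) (Fin N) κ)
    (m : Fin N →₀ ℕ) (h : coeff m (qF q H) ≠ 0) : m ∈ qS q N := by
  classical
  rw [qF_monomial] at h
  by_contra hm
  apply h
  simp only [coeff_sum, coeff_monomial]
  refine Finset.sum_eq_zero fun i _ => Finset.sum_eq_zero fun j _ => ?_
  rw [if_neg]
  intro h1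
  exact hm ⟨i, j, h1.symm⟩

private theorem R1_inj {q N : ℕ} (hq : 2 ≤ q) {i j i' j' : Fin N}
    (h : Finsupp.single i q + Finsupp.single j 1 = Finsupp.single i' q + Finsupp.single j' 1) :
    i = i' ∧ j = j' := by
  classical
  have hi : i = i' := by
    by_contra hne
    have h1 := DFunLike.congr_fun h i
    simp only [Finsupp.add_apply, Finsupp.single_apply, if_true] at h1
    rw [if_neg (show ¬ i' = i from fun h2 => hne h2.symm)] at h1
    split_ifs at h1 <;> omega
  subst hi
  refine ⟨rfl, ?_⟩
  have h2 : Finsupp.single j 1 = (Finsupp.single j' 1 : Fin N →₀ ℕ) := add_left_cancel h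
  exact (Finsupp.single_left_inj one_ne_zero).1 h2

theorem eq_qF_of_mem {κ : Type} [CommRing κ] {q N : ℕ} (hq : 2 ≤ q) (F : MvPolynomial (Fin N) κ)
    (h : ∀ m, coeff m F ≠ 0 → m ∈ qS q N) : ∃ H : Matrix (Fin N) (Fin N) κ, F = qF q H := by
  classical
  refine ⟨fun i j => coeff (Finsupp.single i q + Finsupp.single j 1) F, ?_⟩
  rw [qF_monomial]
  ext m
  simp only [coeff_sum, coeff_monomial]
  by_cases hm : coeff m F = 0
  · rw [hm]
    symm
    refine Finset.sum_eq_zero fun i _ => Finset.sum_eq_zero fun j _ => ?_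
    split_ifs with h1
    · rw [h1, hm]
    · rfl
  · obtain ⟨i, j, rfl⟩ := h m hm
    rw [Finset.sum_eq_single i, Finset.sum_eq_single j, if_pos rfl]
    · intro j' _ hj'
      rw [if_neg]
      intro h1
      exact hj' (R1_inj hq h1).2
    · intro h1
      exact absurd (Finset.mem_univ j) h1
    · intro i' _ hi'
      refine Finset.sum_eq_zero fun j' _ => ?_
      rw [if_neg]
      intro h1
      exact hi' (R1_inj hq h1).1
    · intro h1
      exact absurd (Finset.mem_univ i) h1

end QB46
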