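import Pool.Agent.LibQB9.E4
import Pool.Agent.LibQ9.XDefs

/-!
[QB46 W1] A free curve on the generic fibre spreads out to almost all fibres.
-/

set_option autoImplicit false

namespace QB46

open Polynomial QB9

private theorem W1_hom {A S : Type} [CommRing A] [CommRing S] (f : A →+* S) {m n : ℕ}
    (F : MvPolynomial (Fin m) A) (hF : F.IsHomogeneous n) (g : S) (x : Fin m → S) :
    MvPolynomial.eval₂ f (fun i => g * x i) F = g ^ n * MvPolynomial.eval₂ f x F := by
  rw [MvPolynomial.eval₂_eq', MvPolynomial.eval₂_eq', Finset.mul_sum]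
  refine Finset.sum_congr rfl fun d hd => ?_
  have h1 : ∑ i, d i = n := by
    have h2 := hF (MvPolynomial.mem_support_iff.1 hd)
    rw [← h2, Finsupp.weight_apply, Finsupp.sum_fintype]
    · simp
    · simp
  rw [← h1]
  have h3 : ∏ i, (g * x i) ^ d i = g ^ (∑ i, d i) * ∏ i, x i ^ d i := by
    rw [← Finset.prod_pow_eq_pow_sum, ← Finset.prod_mul_distrib]
    exact Finset.prod_congr rfl fun i _ => mul_pow _ _ _
  rw [h3]
  ring

/-- a homomorphism to a field extends to an integral extension -/
theorem ext_hom {k : Type} [Field k] {O B : Type} [CommRing O] [Algebra k O] [CommRing B]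
    [Algebra O B] [Algebra.IsIntegral O B] (hinj : Function.Injective (algebraMap O B))
    (ev : O →ₐ[k] k) : ∃ (κ : Type) (_ : Field κ) (ψ : B →+* κ) (ι : k →+* κ),
      ∀ f : O, ψ (algebraMap O B f) = ι (ev f) := by
  have hsurj : Function.Surjective (ev : O →+* k) := fun c => ⟨algebraMap k O c, by simp⟩
  haveI : (RingHom.ker (ev : O →+* k)).IsMaximal := RingHom.ker_isMaximal_of_surjective _ hsurj
  obtain ⟨Q, hQ, hQc⟩ := Ideal.exists_ideal_over_maximal_of_isIntegral (S := B)
    (RingHom.ker (ev : O →+* k)) (by
      rw [(RingHom.injective_iff_ker_eq_bot _).1 hinj]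
      exact bot_le)
  letI : Field (B ⧸ Q) := Ideal.Quotient.field Q
  refine ⟨B ⧸ Q, inferInstance, Ideal.Quotient.mk Q,
    ((Ideal.Quotient.mk Q).comp (algebraMap O B)).comp (algebraMap k O), fun f => ?_⟩
  change Ideal.Quotient.mk Q (algebraMap O B f) =
    Ideal.Quotient.mk Q (algebraMap O B (algebraMap k O (ev f)))
  rw [Ideal.Quotient.eq, ← map_sub]
  have h1 : f - algebraMap k O (ev f) ∈ RingHom.ker (ev : O →+* k) := by
    rw [RingHom.mem_ker]
    change ev (f - algebraMap k O (ev f)) = 0
    rw [map_sub, AlgHom.commutes, Algebra.algebraMap_self_apply, sub_self]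
  rw [← hQc] at h1
  exact h1

private theorem W1_lift {O L : Type} [CommRing O] [Field L] [Algebra O L] (g : O) (p : L[X])
    (h : ∀ m, IsIntegral O (g • p.coeff m)) :
    ∃ p' : (integralClosure O L)[X], p'.map (algebraMap (integralClosure O L) L) =
      C (algebraMap O L g) * p ∧ p'.natDegree ≤ p.natDegree := by
  refine ⟨∑ m ∈ Finset.range (p.natDegree + 1), C (⟨g • p.coeff m, h m⟩ : integralClosure O L) * X ^ m,
    ?_, ?_⟩
  · rw [Polynomial.map_sum]
    conv_rhs => rw [p.as_sum_range_C_mul_X_pow, Finset.mul_sum]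
    refine Finset.sum_congr rfl fun m _ => ?_
    rw [Polynomial.map_mul, Polynomial.map_C, Polynomial.map_pow, Polynomial.map_X, ← mul_assoc,
      ← C_mul, ← Algebra.smul_def]
    rfl
  · refine natDegree_sum_le_of_forall_le _ _ fun m hm => ?_
    refine (natDegree_C_mul_le _ _).trans ?_
    rw [natDegree_X_pow]
    exact Nat.lt_succ_iff.1 (Finset.mem_range.1 hm)

/-- a free curve over an algebraic extension spreads out to the fibres where `g` does not vanish -/
theorem spread_free {k O L : Type} [Field k] [IsAlgClosed k] [CommRing O] [IsDomain O] [Algebra k O]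
    [Field L] [Algebra O L] [Algebra.IsAlgebraic O L] (hOL : Function.Injective (algebraMap O L))
    {n : ℕ} (F : MvPolynomial (Fin (n + 1)) O) (hF : F.IsHomogeneous n) (d : ℕ)
    (γ : Fin (n + 1) → L[X]) (h : Q9.Free (MvPolynomial.map (algebraMap O L) F) d γ) :
    ∃ g : O, g ≠ 0 ∧ ∀ ev : O →ₐ[k] k, ev g ≠ 0 →
      ∃ γ' : Fin (n + 1) → k[X], Q9.Free (MvPolynomial.map (ev : O →+* k) F) d γ' := by
  classical
  obtain ⟨hd, ⟨hγd, hγF⟩, hfree⟩ := h
  choose b hb hbX using fun l : Fin (n * d) => hfree (X ^ (l : ℕ))
    (by rw [degree_X_pow]; exact_mod_cast l.2)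
  -- the coefficients
  let T : Finset L := (Finset.univ.biUnion fun i => (γ i).coeffs) ∪
    (Finset.univ.biUnion fun l => Finset.univ.biUnion fun i => (b l i).coeffs)
  obtain ⟨g, hg0, hg⟩ := Algebra.IsAlgebraic.exists_integral_multiples (R := O) T
  have hz : IsIntegral O (g • (0 : L)) := by
    rw [smul_zero]
    exact isIntegral_zero
  have hco : ∀ p : L[X], p.coeffs ⊆ T → ∀ m, IsIntegral O (g • p.coeff m) := by
    intro p hp m
    by_cases h0 : p.coeff m = 0
    · rw [h0]
      exact hz
    · exact hg _ (hp (coeff_mem_coeffs h0))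
  have hγT : ∀ i, (γ i).coeffs ⊆ T := fun i => (Finset.subset_biUnion_of_mem
    (fun i => (γ i).coeffs) (Finset.mem_univ i)).trans Finset.subset_union_left
  have hbT : ∀ l i, (b l i).coeffs ⊆ T := fun l i => ((Finset.subset_biUnion_of_mem
    (fun i => (b l i).coeffs) (Finset.mem_univ i)).trans (Finset.subset_biUnion_of_mem
      (fun l => Finset.univ.biUnion fun i => (b l i).coeffs) (Finset.mem_univ l))).trans
        Finset.subset_union_right
  choose γ' hγ' hγ'd using fun i => W1_lift g (γ i) (hco _ (hγT i))
  choose b' hb' hb'd using fun l i => W1_lift g (b l i) (hco _ (hbT l i))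
  have hBL : Function.Injective (algebraMap (integralClosure O L) L) := Subtype.val_injective
  have hOB : Function.Injective (algebraMap O (integralClosure O L)) := by
    intro x y hxy
    apply hOL
    have h1 := congrArg (algebraMap (integralClosure O L) L) hxy
    rwa [← IsScalarTower.algebraMap_apply, ← IsScalarTower.algebraMap_apply] at h1
  refine ⟨g, hg0, fun ev hev => ?_⟩
  obtain ⟨κ, iκ, ψ, ι, hψ⟩ := ext_hom hOB ev
  letI : Algebra k κ := ι.toAlgebra
  have hcomp : (algebraMap (integralClosure O L) L).comp (algebraMap O (integralClosure O L)) = algebraMap O L := by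
    ext x
    exact (IsScalarTower.algebraMap_apply O (integralClosure O L) L x).symm
  have hcompψ : ψ.comp (algebraMap O (integralClosure O L)) = (algebraMap k κ).comp (ev : O →+* k) := by
    ext x
    exact hψ x
  have hψg : ψ (algebraMap O (integralClosure O L) g) ≠ 0 := by
    rw [hψ]
    exact fun h0 => hev ((map_eq_zero ι).1 h0)
  -- values at `γ'`
  have hEv : ∀ (e : ℕ) (H : MvPolynomial (Fin (n + 1)) O), H.IsHomogeneous e →
      (Ev (algebraMap O (integralClosure O L)) γ' H).map (algebraMap (integralClosure O L) L) =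
        C (algebraMap O L g) ^ e * Ev (algebraMap O L) γ H := by
    intro e H hH
    rw [map_Ev, hcomp]
    simp only [hγ']
    exact W1_hom _ H hH _ _
  have hEvL : ∀ H : MvPolynomial (Fin (n + 1)) O, MvPolynomial.aeval γ (MvPolynomial.map (algebraMap O L) H) =
      Ev (algebraMap O L) γ H := by
    intro H
    rw [MvPolynomial.aeval_def, MvPolynomial.eval₂_map]
    rfl
  let γ1 : Fin (n + 1) → κ[X] := fun i => (γ' i).map ψ
  have hEvκ : ∀ H : MvPolynomial (Fin (n + 1)) O, MvPolynomial.aeval γ1 (MvPolynomial.map (ev : O →+* k) H) =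
      (Ev (algebraMap O (integralClosure O L)) γ' H).map ψ := by
    intro H
    rw [map_Ev, hcompψ, MvPolynomial.aeval_def, MvPolynomial.eval₂_map]
    rfl
  have h0 : Ev (algebraMap O (integralClosure O L)) γ' F = 0 := by
    apply Polynomial.map_injective _ hBL
    rw [hEv n F hF, ← hEvL, hγF, mul_zero, Polynomial.map_zero]
  have hgr : ∀ l : Fin (n * d), ∑ s, Ev (algebraMap O (integralClosure O L)) γ' (MvPolynomial.pderiv s F) * b' l s =
      C (algebraMap O (integralClosure O L) g) ^ (n - 1 + 1) * X ^ (l : ℕ) := by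
    intro l
    apply Polynomial.map_injective _ hBL
    rw [Polynomial.map_sum]
    have h1 : ∀ s, (Ev (algebraMap O (integralClosure O L)) γ' (MvPolynomial.pderiv s F) * b' l s).map (algebraMap (integralClosure O L) L) =
        C (algebraMap O L g) ^ (n - 1 + 1) *
          (MvPolynomial.aeval γ (MvPolynomial.pderiv s (MvPolynomial.map (algebraMap O L) F)) * b l s) := by
      intro s
      rw [Polynomial.map_mul, hEv (n - 1) _ hF.pderiv, hb', MvPolynomial.pderiv_map, hEvL]
      ring
    rw [Finset.sum_congr rfl fun s _ => h1 s, ← Finset.mul_sum]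
    have h2 := hbX l
    unfold Q9.grad at h2
    rw [h2, Polynomial.map_mul, Polynomial.map_pow, Polynomial.map_pow, Polynomial.map_X,
      Polynomial.map_C, ← IsScalarTower.algebraMap_apply]
  have hfree1 : Q9.Free (MvPolynomial.map (ev : O →+* k) F) d γ1 := by
    refine ⟨hd, ⟨fun i => natDegree_map_le.trans ((hγ'd i).trans (hγd i)), ?_⟩, fun f hf => ?_⟩
    · rw [hEvκ, h0, Polynomial.map_zero]
    · set u : κ := (ψ (algebraMap O (integralClosure O L) g)) ^ (n - 1 + 1) with hu
      have hu0 : u ≠ 0 := pow_ne_zero _ hψg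
      have hbd : ∀ l i, ((b' l i).map ψ).degree < (d : ℕ) := by
        intro l i
        refine lt_of_le_of_lt degree_map_le ?_
        by_cases h0 : b' l i = 0
        · rw [h0, degree_zero]
          exact WithBot.bot_lt_coe _
        · rw [degree_eq_natDegree h0]
          by_cases h1 : b l i = 0
          · exfalso
            apply h0
            apply Polynomial.map_injective _ hBL
            rw [hb', h1, mul_zero, Polynomial.map_zero]
          · have h2 := hb l i
            rw [degree_eq_natDegree h1] at h2
            exact lt_of_le_of_lt (by exact_mod_cast hb'd l i) h2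
      refine ⟨fun i => ∑ l : Fin (n * d), C (f.coeff l / u) * (b' l i).map ψ, fun i => ?_, ?_⟩
      · refine lt_of_le_of_lt (degree_sum_le _ _) ?_
        refine (Finset.sup_lt_iff (WithBot.bot_lt_coe d)).2 fun l _ => ?_
        rw [← smul_eq_C_mul]
        exact lt_of_le_of_lt (degree_smul_le _ _) (hbd l i)
      · have h1 : Q9.grad (MvPolynomial.map (ev : O →+* k) F) γ1
            (fun i => ∑ l : Fin (n * d), C (f.coeff l / u) * (b' l i).map ψ) =
            ∑ l : Fin (n * d), C (f.coeff l / u) *
              (∑ s, Ev (algebraMap O (integralClosure O L)) γ' (MvPolynomial.pderiv s F) * b' l s).map ψ := by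
          unfold Q9.grad
          simp_rw [Finset.mul_sum, Polynomial.map_sum, Finset.mul_sum]
          rw [Finset.sum_comm]
          refine Finset.sum_congr rfl fun l _ => Finset.sum_congr rfl fun s _ => ?_
          rw [MvPolynomial.pderiv_map, hEvκ, Polynomial.map_mul]
          ring
        rw [h1]
        have h2 : ∀ l : Fin (n * d), C (f.coeff l / u) *
            (∑ s, Ev (algebraMap O (integralClosure O L)) γ' (MvPolynomial.pderiv s F) * b' l s).map ψ =
            C (f.coeff l) * X ^ (l : ℕ) := by
          intro l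
          rw [hgr, Polynomial.map_mul, Polynomial.map_pow, Polynomial.map_pow, Polynomial.map_C,
            Polynomial.map_X, ← C_pow, ← hu, ← mul_assoc, ← C_mul, div_mul_cancel₀ _ hu0]
        rw [Finset.sum_congr rfl fun l _ => h2 l]
        ext m
        rw [finsetSum_coeff]
        simp only [coeff_C_mul, coeff_X_pow]
        by_cases hm : m < n * d
        · rw [Finset.sum_eq_single (⟨m, hm⟩ : Fin (n * d))]
          · simp
          · intro c _ hc
            rw [if_neg, mul_zero]
            intro h
            exact hc (Fin.ext h.symm)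
          · intro h
            exact absurd (Finset.mem_univ _) h
        · rw [coeff_eq_zero_of_degree_lt (lt_of_lt_of_le hf (by exact_mod_cast not_lt.1 hm))]
          refine Finset.sum_eq_zero fun c _ => ?_
          rw [if_neg, mul_zero]
          intro h
          exact hm (by rw [h]; exact c.2)
  obtain ⟨γ2, hγ2, -⟩ := Q9.free_transfer _ d _ hfree1
  exact ⟨γ2, hγ2⟩

end QB46
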