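import Pool.Agent.LibQB46.F1
import Pool.Agent.LibQB46.R1
import Pool.Agent.LibQB46.W2

/-!
[QB46 R2] Assembly: free and very free curves on smooth q-bic hypersurfaces; weak approximation at the places of
good q-bic reduction.
-/

set_option autoImplicit false

namespace QB46

open MvPolynomial

theorem two_le {p : ℕ} (hp : p.Prime) {q r : ℕ} (hq : q = p ^ r) (hr : r ≠ 0) : 2 ≤ q := by
  rw [hq]
  exact le_trans hp.two_le (Nat.le_self_pow hr p)

theorem cast_ne {k : Type} [Field k] (p : ℕ) [Fact p.Prime] [CharP k p] {q r : ℕ} (hq : q = p ^ r)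
    (hr : r ≠ 0) : ((q + 1 : ℕ) : k) ≠ 0 := by
  have h1 : ((q : ℕ) : k) = 0 := by
    rw [CharP.cast_eq_zero_iff k p, hq]
    exact dvd_pow_self p hr
  rw [Nat.cast_add, h1, zero_add, Nat.cast_one]
  exact one_ne_zero

theorem free_S {k : Type} [Field k] [IsAlgClosed k] (p : ℕ) [Fact p.Prime] [CharP k p] {q r : ℕ}
    (hq : q = p ^ r) (hr : r ≠ 0) (F : MvPolynomial (Fin (q + 2)) k)
    (hF : ∀ m, coeff m F ≠ 0 → m ∈ qS q (q + 2)) (hs : Q9.Smooth F) :
    ∃ (d : ℕ) (γ : Fin (q + 2) → Polynomial k), Q9.Free (n := q + 1) F d γ := by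
  obtain ⟨H, rfl⟩ := eq_qF_of_mem (two_le Fact.out hq hr) F hF
  exact exists_free_qbic p hq hr H (det_of_smooth p hq hr H hs)

/-- every smooth q-bic hypersurface of degree `q + 1` in `P^(q+1)` has a very free curve (`q ≥ 3`) -/
theorem very_free_S {k : Type} [Field k] [IsAlgClosed k] (p : ℕ) [Fact p.Prime] [CharP k p]
    {q r : ℕ} (hq : q = p ^ r) (hr : r ≠ 0) (hq3 : 3 ≤ q) (F : MvPolynomial (Fin (q + 2)) k)
    (hF : ∀ m, coeff m F ≠ 0 → m ∈ qS q (q + 2)) (hFh : F.IsHomogeneous (q + 1))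
    (hs : Q9.Smooth F) :
    ∃ (d : ℕ) (γ : Fin (q + 2) → Polynomial k), Q9.Free (n := q + 1) F d γ ∧
      Q9.Cor (n := q + 1) F d γ 0 :=
  Q9.very_free (n := q + 1) (by omega) (cast_ne p hq hr) F hFh hs
    (Q9.hu (n := q + 1) (by omega) (cast_ne p hq hr) F hFh hs) (free_S p hq hr F hF hs)

/-- smoothness over the algebraic closure of an algebraically closed field -/
theorem smooth_of_closure {k : Type} [Field k] {m : ℕ} (F : MvPolynomial (Fin m) k)
    (h : ∀ x : Fin m → AlgebraicClosure k, (∀ i, aeval x (pderiv i F) = 0) → x = 0) :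
    Q9.Smooth F := by
  intro x hx
  have h1 := h (fun i => algebraMap k (AlgebraicClosure k) (x i)) fun i => by
    rw [show (aeval fun i => algebraMap k (AlgebraicClosure k) (x i)) (pderiv i F) =
      algebraMap k (AlgebraicClosure k) (eval x (pderiv i F)) from by
        rw [← coe_aeval_eq_eval]
        exact aeval_algebraMap_apply (AlgebraicClosure k) x (pderiv i F), hx i, map_zero]
  funext i
  have h2 := congrFun h1 i
  exact (map_eq_zero _).1 h2

/-- a place with smooth q-bic reduction has a free curve in the fibre -/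
theorem free_place {k K : Type} [Field k] [IsAlgClosed k] (p : ℕ) [Fact p.Prime] [CharP k p] [Field K]
    [Algebra k K] [Algebra.EssFiniteType k K] (htr : Algebra.trdeg k K = 1) {q r : ℕ}
    (hq : q = p ^ r) (hr : r ≠ 0) (A : ValuationSubring K) (hk : ∀ c : k, algebraMap k K c ∈ A)
    (hA : A ≠ ⊤) (G : MvPolynomial (Fin (q + 2)) A)
    (hgood : ∀ x : Fin (q + 2) → AlgebraicClosure (IsLocalRing.ResidueField A),
      (∀ i, aeval x (pderiv i (map (IsLocalRing.residue A) G)) = 0) → x = 0)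
    (hQ : ∃ H : Fin (q + 2) → Fin (q + 2) → IsLocalRing.ResidueField A,
      map (IsLocalRing.residue A) G = ∑ i, ∑ j, C (H i j) * X i ^ q * X j) :
    ∃ (d : ℕ) (γ : Fin (q + 1 + 1) → Polynomial (IsLocalRing.ResidueField A)),
      Q9.Free (n := q + 1) (map (IsLocalRing.residue A) G) d γ := by
  obtain ⟨H, hH⟩ := hQ
  have hH' : map (IsLocalRing.residue A) G = qF q (Matrix.of H) := hH
  haveI : IsAlgClosed (IsLocalRing.ResidueField A) := QB9.isAlgClosed_residue htr A hk hA
  haveI : CharP (IsLocalRing.ResidueField A) p := QB9.charP_residue (k := k) p A hk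
  refine free_S p hq hr _ (fun m hm => ?_) (smooth_of_closure _ hgood)
  rw [hH'] at hm
  exact qF_coeff_mem q _ m hm

/-- weak approximation at the places of good q-bic reduction -/
theorem wa_qbic {k K : Type} [Field k] [IsAlgClosed k] (p : ℕ) [Fact p.Prime] [CharP k p] [Field K]
    [Algebra k K] [Algebra.EssFiniteType k K] (htr : Algebra.trdeg k K = 1) {q r : ℕ}
    (hq : q = p ^ r) (hq3 : 3 ≤ q) (F : MvPolynomial (Fin (q + 2)) K) (hF : F.IsHomogeneous (q + 1))
    (hs : ∀ x : Fin (q + 2) → AlgebraicClosure K, (∀ i, aeval x (pderiv i F) = 0) → x = 0)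
    {s : ℕ} (A : Fin s → ValuationSubring K) (hA : Function.Injective A)
    (hk : ∀ j (c : k), algebraMap k K c ∈ A j) (hA1 : ∀ j, A j ≠ ⊤) (c : Fin s → K)
    (hc : ∀ j, c j ≠ 0) (G : ∀ j, MvPolynomial (Fin (q + 2)) (A j))
    (hG : ∀ j, map (algebraMap (A j) K) (G j) = C (c j) * F)
    (hgood : ∀ j, ∀ x : Fin (q + 2) → AlgebraicClosure (IsLocalRing.ResidueField (A j)),
      (∀ i, aeval x (pderiv i (map (IsLocalRing.residue (A j)) (G j))) = 0) → x = 0)
    (hQ : ∀ j, ∃ H : Fin (q + 2) → Fin (q + 2) → IsLocalRing.ResidueField (A j),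
      map (IsLocalRing.residue (A j)) (G j) = ∑ i, ∑ j, C (H i j) * X i ^ q * X j)
    (N : ℕ) (x : ∀ j, Fin (q + 2) → A j) (hx : ∀ j, ∃ i, x j i ∉ IsLocalRing.maximalIdeal (A j))
    (hxG : ∀ j, eval (x j) (G j) ∈ IsLocalRing.maximalIdeal (A j) ^ N) :
    ∃ X : Fin (q + 2) → K, X ≠ 0 ∧ eval X F = 0 ∧ ∀ j, ∃ Y : Fin (q + 2) → A j,
      (∀ i, (Y i : K) = X i) ∧ ∀ i, Y i - x j i ∈ IsLocalRing.maximalIdeal (A j) ^ N := by
  have hr : r ≠ 0 := by
    rintro rfl
    rw [pow_zero] at hq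
    omega
  exact Q9.weak_approx_g (n := q + 1) (by omega) (cast_ne (k := k) p hq hr) htr F hF hs A hA hk hA1
    c hc G hG hgood (fun j => free_place (k := k) p htr hq hr (A j) (hk j) (hA1 j) (G j) (hgood j) (hQ j))
    N x hx hxG

end QB46
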